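import Pool.Agent.Lib.MP_a2d0bb_al.Glue

/-!
Extraction of conjugates of one small element from two generators (pure set theory).
-/

set_option autoImplicit false

open Equiv Set

namespace Pool.Agent.Lib.MP_a2d0bb_al.CM

variable {X : Type*} {x : Perm X} {V B : Set X}

theorem ai (f : Perm X) (z : X) : f (f⁻¹ z) = z := by simp

theorem ia (f : Perm X) (z : X) : f⁻¹ (f z) = z := by simp

theorem pw (x : Perm X) (n : ℕ) (t : X) : x ((x ^ n) t) = (x ^ (n + 1)) t := by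
  rw [pow_succ', Perm.mul_apply]

theorem pw_add (x : Perm X) (m n : ℕ) (t : X) : (x ^ m) ((x ^ n) t) = (x ^ (m + n)) t := by
  rw [pow_add, Perm.mul_apply]

theorem pow_in (h1 : ∀ z ∈ V, x z ∈ V) (n : ℕ) {z : X} (hz : z ∈ V) : (x ^ n) z ∈ V := by
  induction n with
  | zero => exact hz
  | succ n ih => rw [← pw]; exact h1 _ ih

theorem slot_eq (h1 : ∀ z ∈ V, x z ∈ V) (hB : ∀ z ∈ B, z ∈ V ∧ x⁻¹ z ∉ V) {n m : ℕ} {t t' : X}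
    (ht : t ∈ B) (ht' : t' ∈ B) (h : (x ^ n) t = (x ^ m) t') : n = m := by
  have key : ∀ {n m : ℕ} {t t' : X}, t ∈ B → t' ∈ B → (x ^ n) t = (x ^ m) t' → ¬ n < m := by
    intro n m t t' ht ht' h hlt
    obtain ⟨k, rfl⟩ := Nat.exists_eq_add_of_lt hlt
    rw [add_assoc, ← pw_add, ← pw] at h
    refine (hB t ht).2 ?_
    rw [(x ^ n).injective h, ia]
    exact pow_in h1 k (hB _ ht').1
  exact le_antisymm (not_lt.1 (key ht' ht h.symm)) (not_lt.1 (key ht ht' h))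

theorem comm_key {G : Type*} [Group G] {a b J J' : G} (c1 : Commute J b) (c2 : Commute J' a)
    (c3 : Commute J J') : a * b * a⁻¹ * b⁻¹ = a * J * (b * J') * (a * J)⁻¹ * (b * J')⁻¹ := by
  calc _ = a * b * (J' * a⁻¹) * J'⁻¹ * b⁻¹ := by rw [c2.inv_right.eq]; group
    _ = a * (b * J) * J' * J⁻¹ * a⁻¹ * J'⁻¹ * b⁻¹ := by
      rw [mul_assoc _ J', c3.symm.inv_right.eq]; group
    _ = _ := by rw [← c1.eq]; group

theorem word_split {N N' : Set X} (h : ∀ z ∈ N, z ∉ N') {p q p' q' : Perm X} (hp : p ∈ Sup N)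
    (hq : q ∈ Sup N) (hp' : p' ∈ Sup N') (hq' : q' ∈ Sup N') :
    (p * p')⁻¹ * (q * q') * (p * p') * (q * q')⁻¹ =
      p⁻¹ * q * p * q⁻¹ * (p'⁻¹ * q' * p' * q'⁻¹) := by
  let ψ := MonoidHom.noncommCoprod (Sup N).subtype (Sup N').subtype
    fun a b => sup_comm a.2 b.2 h
  have e : ∀ a b, ψ (a, b) = a.1 * b.1 := fun _ _ => rfl
  rw [← e ⟨p, hp⟩ ⟨p', hp'⟩, ← e ⟨q, hq⟩ ⟨q', hq'⟩, ← map_inv, ← map_inv, ← map_mul, ← map_mul,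
    ← map_mul]
  rfl

/-- The conclusion of the swindle. -/
def Sw (x : Perm X) (B : Set X) (A : ℕ → Perm X) (Φ : Perm X) : Prop :=
  (∀ n, ∀ t ∈ B, Φ ((x ^ n) t) = (x ^ n) (A n t)) ∧
    ∀ z, (∀ n, ∀ t ∈ B, (x ^ n) t ≠ z) → Φ z = z

theorem Sw.sup {A : ℕ → Perm X} {Φ : Perm X} (h : Sw x B A Φ) (h1 : ∀ z ∈ V, x z ∈ V)
    (hB : ∀ z ∈ B, z ∈ V) : Φ ∈ Sup V :=
  fun z hz => h.2 z fun n t ht e => hz (e ▸ pow_in h1 n (hB t ht))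

theorem Sw.perf {c C : Perm X} (h : Sw x B (fun _ => c) C) (h1 : ∀ z ∈ V, x z ∈ V)
    (hB : ∀ z ∈ B, z ∈ V ∧ x⁻¹ z ∉ V) (c1 : c ∈ Sup B) : c = C * x * C⁻¹ * x⁻¹ := by
  obtain ⟨C1, C2⟩ := h
  have key : C = c * (x * C * x⁻¹) := by
    refine Equiv.ext fun z => ?_
    simp only [Perm.mul_apply]
    by_cases hz : ∃ n, ∃ t ∈ B, (x ^ n) t = z
    · obtain ⟨n, t, ht, rfl⟩ := hz
      cases n with
      | zero =>
        have e1 : C (x⁻¹ t) = x⁻¹ t :=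
          C2 _ fun n t' ht' e => (hB t ht).2 (e ▸ pow_in h1 n (hB t' ht').1)
        have e2 : C t = c t := C1 0 t ht
        change C t = c (x (C (x⁻¹ t)))
        rw [e1, e2, ai]
      | succ n =>
        have e1 : x⁻¹ ((x ^ (n + 1)) t) = (x ^ n) t := by rw [← pw, ia]
        rw [C1 _ t ht, e1, C1 n t ht, pw]
        exact (c1 _ fun h' =>
          Nat.succ_ne_zero n (slot_eq h1 hB (sup_map c1 ht) h' (m := 0) rfl)).symm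
    · have hz' : ∀ n, ∀ t ∈ B, (x ^ n) t ≠ z := fun n t ht e => hz ⟨n, t, ht, e⟩
      rw [C2 z hz', C2 _ fun n t ht e => hz' (n + 1) t ht (by rw [← pw, e, ai]), ai,
        c1 z fun h' => hz' 0 z h' rfl]
  calc c = c * (x * C * x⁻¹) * x * C⁻¹ * x⁻¹ := by group
    _ = _ := by rw [← key]

theorem core (G 𝒜 : Subgroup (Perm X)) (f₁ f₂ x : Perm X) (hx : x ∈ G)
    {V B N N' C T₁ T₂ : Set X} {k : ℕ} (hA : ∀ a ∈ 𝒜, a ∈ Sup B)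
    (h1 : ∀ z ∈ V, x z ∈ V) (hB : ∀ z ∈ B, z ∈ V ∧ x⁻¹ z ∉ V)
    (sw : ∀ A : ℕ → Perm X, (∀ n, A n ∈ 𝒜) → ∃ Φ ∈ G, Sw x B A Φ)
    (hVN : ∀ z ∈ V, z ∈ N) (hNN : ∀ z ∈ N, z ∉ N')
    (hf1 : f₁ ∈ Sup T₁) (hT1 : ∀ z ∈ T₁, z ∈ N ∧ x⁻¹ z ∈ N)
    (hf2 : f₂ ∈ Sup T₂) (hT2 : ∀ z ∈ T₂, z ∈ N' ∧ x⁻¹ z ∈ N')
    (h2 : ∀ z ∈ V, f₁ z ∉ V ∧ f₁ (f₁ z) ∉ V ∧ x (f₁ (f₁ z)) = f₁ (x z) ∧
      x (f₁ z) = f₁ (x (f₁⁻¹ z)))
    (hC : (x⁻¹ * f₂ * x)⁻¹ * f₂ * (x⁻¹ * f₂ * x) * f₂⁻¹ ∈ Sup C)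
    (k1 : ∀ z ∈ N, (x ^ k) z ∈ V) (k2 : ∀ z ∈ C, (x ^ (k + 1)) z ∉ N ∧ (x ^ (k + 1)) z ∉ C)
    {l₁ l₂ : Perm X} (hl1 : l₁ ∈ 𝒜) (hl2 : l₂ ∈ 𝒜) (b : ℕ → Perm X) (hb : ∀ i, b i ∈ 𝒜) :
    ∃ g ∈ G, (∀ z ∉ V, g z = x z) ∧ ∀ i, b i * (l₁ * l₂ * l₁⁻¹ * l₂⁻¹) * (b i)⁻¹ ∈
      Subgroup.closure ({f₁ * f₂, g} : Set (Perm X)) := by
  have hinj : Function.Injective fun i : ℕ => (2 * i + 1) * (k + 1) := fun i j h => by
    have := Nat.eq_of_mul_eq_mul_right (Nat.succ_pos k) h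
    omega
  obtain ⟨β, β0, βk, β1, β2⟩ : ∃ β : ℕ → Perm X, β 0 = l₁ ∧ β (k + 1) = l₂ ∧
      (∀ i, β ((2 * (i + 1) + 1) * (k + 1)) = b i) ∧
      ∀ n, β n ∈ 𝒜 ∧ (n ≠ 0 → (¬ ∃ i, (2 * i + 1) * (k + 1) = n) → β n = 1) := by
    let b' : ℕ → Perm X := fun n => Nat.rec l₂ (fun n _ => b n) n
    let γ := Function.extend (fun i : ℕ => (2 * i + 1) * (k + 1)) b' 1
    refine ⟨fun n => if n = 0 then l₁ else γ n, if_pos rfl, (if_neg (by omega)).trans ?_,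
      fun i => (if_neg (by positivity)).trans (hinj.extend_apply _ _ (i + 1)), fun n => ⟨?_,
      fun h hn => (if_neg h).trans (Function.extend_apply' _ _ _ hn)⟩⟩
    · have := hinj.extend_apply b' 1 0
      rwa [mul_zero, zero_add, one_mul] at this
    · dsimp only
      split_ifs
      · exact hl1
      by_cases hn : ∃ i, (2 * i + 1) * (k + 1) = n
      · obtain ⟨i, rfl⟩ := hn
        rw [show γ _ = b' i from hinj.extend_apply _ _ i]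
        cases i
        exacts [hl2, hb _]
      · rw [show γ n = 1 from Function.extend_apply' _ _ _ hn]
        exact one_mem _
  obtain ⟨A, A0, A1⟩ : ∃ A : ℕ → Perm X, A 0 = 1 ∧ ∀ n, A (n + 1) = A n * (β n)⁻¹ :=
    ⟨fun n => Nat.rec 1 (fun n a => a * (β n)⁻¹) n, rfl, fun _ => rfl⟩
  obtain ⟨Φ, Φ0, hΦ⟩ := sw A fun n => by
    induction n with
    | zero => rw [A0]; exact one_mem _
    | succ n ih => rw [A1]; exact mul_mem ih (inv_mem (β2 n).1)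
  have ΦV : Φ ∈ Sup V := hΦ.sup h1 fun z hz => (hB z hz).1
  obtain ⟨Φ1, Φ2⟩ := hΦ
  have ΦB : ∀ t ∈ B, Φ t = t := fun t ht => by simpa [A0] using Φ1 0 t ht
  have gx : ∀ z ∉ V, (Φ * x * Φ⁻¹) z = x z := fun z hz => by
    rw [Perm.mul_apply, Perm.mul_apply, inv_mem ΦV z hz]
    by_cases h : x z ∈ B
    · exact ΦB _ h
    refine Φ2 _ fun n t ht e => ?_
    cases n with
    | zero => exact h (e ▸ ht)
    | succ n => exact hz (x.injective ((pw x n t).trans e) ▸ pow_in h1 n (hB t ht).1)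
  refine ⟨Φ * x * Φ⁻¹, mul_mem (mul_mem Φ0 hx) (inv_mem Φ0), gx, fun i => ?_⟩
  obtain ⟨g, hg⟩ : ∃ g, g = Φ * x * Φ⁻¹ := ⟨_, rfl⟩
  rw [← hg] at gx ⊢
  have gi : ∀ z ∉ V, g⁻¹ (x z) = z := fun z hz => by rw [← gx z hz, ia]
  have gV : ∀ z ∈ V, g z ∈ V := fun z hz => by
    rw [hg, Perm.mul_apply, Perm.mul_apply]
    exact sup_map ΦV (h1 _ (sup_map (inv_mem ΦV) hz))
  set K := Subgroup.closure ({f₁ * f₂, g} : Set (Perm X)) with hK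
  let K' : Subgroup (Perm X) := K.comap (MulAut.conj Φ).toMonoidHom
  have mK : ∀ y, y ∈ K' ↔ Φ * y * Φ⁻¹ ∈ K := fun _ => Iff.rfl
  have fK : f₁ * f₂ ∈ K := Subgroup.subset_closure (by simp)
  have gK : g ∈ K := Subgroup.subset_closure (by simp)
  have xK : x ∈ K' := (mK _).2 (hg ▸ gK)
  have p1 : g⁻¹ * f₁ * g ∈ Sup N := by
    simpa using sup_conj (e := g⁻¹) (V := N) hf1 fun z hz => by
      by_cases h : x⁻¹ z ∈ V
      · exact hVN _ (by_contra fun h' => h' (x.injective ((gx _ h').symm.trans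
          ((ai g z).trans (ai x z).symm)) ▸ h))
      · rw [← ai x z, gi _ h]; exact (hT1 z hz).2
  have p2 : g⁻¹ * f₂ * g = x⁻¹ * f₂ * x := by
    simpa using sup_cong (e := g⁻¹) (e' := x⁻¹) hf2 fun z hz => by
      rw [← ai x z, gi _ fun h => hNN _ (hVN _ h) (hT2 z hz).2, ia]
  have p3 : x⁻¹ * f₂ * x ∈ Sup N' := by
    simpa using sup_conj (e := x⁻¹) (V := N') hf2 fun z hz => (hT2 z hz).2
  have q1 : f₁ ∈ Sup N := sup_mono hf1 fun z hz => (hT1 z hz).1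
  have q2 : f₂ ∈ Sup N' := sup_mono hf2 fun z hz => (hT2 z hz).1
  obtain ⟨e₁, he₁⟩ : ∃ e, e = (g⁻¹ * f₁ * g)⁻¹ * f₁ * (g⁻¹ * f₁ * g) * f₁⁻¹ := ⟨_, rfl⟩
  obtain ⟨e₂, he₂⟩ : ∃ e, e = (x⁻¹ * f₂ * x)⁻¹ * f₂ * (x⁻¹ * f₂ * x) * f₂⁻¹ := ⟨_, rfl⟩
  have eK : e₁ * e₂ ∈ K := by
    rw [he₁, he₂, ← word_split hNN p1 q1 p3 q2, ← p2,
      show g⁻¹ * f₁ * g * (g⁻¹ * f₂ * g) = g⁻¹ * (f₁ * f₂) * g by group]
    have := mul_mem (mul_mem (inv_mem gK) fK) gK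
    exact mul_mem (mul_mem (mul_mem (inv_mem this) fK) this) (inv_mem fK)
  have e2N : e₂ ∈ Sup N' := he₂ ▸ mul_mem (mul_mem (mul_mem (inv_mem p3) q2) p3) (inv_mem q2)
  have e1N : e₁ ∈ Sup N := he₁ ▸ mul_mem (mul_mem (mul_mem (inv_mem p1) q1) p1) (inv_mem q1)
  rw [← he₂] at hC
  obtain ⟨u, hu⟩ : ∃ u, u = Φ⁻¹ * (e₁ * e₂) * Φ := ⟨_, rfl⟩
  have uK : u ∈ K' := (mK _).2 (by rw [hu]; simpa [mul_assoc] using eK)
  have uS : u ∈ Sup (N ∪ C) := by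
    have := sup_mono (V := N ∪ C) ΦV fun z hz => Or.inl (hVN z hz)
    exact hu ▸ mul_mem (mul_mem (inv_mem this) (mul_mem (sup_mono e1N fun _ => Or.inl)
      (sup_mono hC fun _ => Or.inr))) this
  have uV : ∀ z ∈ V, u z = x⁻¹ (Φ⁻¹ (x (Φ z))) := fun z hz => by
    have hz' := sup_map ΦV hz
    obtain ⟨a1, a2, a3, a4⟩ := h2 _ hz'
    have a5 : f₁⁻¹ (Φ z) ∉ V := fun h => (h2 _ h).1 (by rw [ai]; exact hz')
    have e : e₁ = g⁻¹ * f₁⁻¹ * g * f₁ * g⁻¹ * f₁ * g * f₁⁻¹ := by rw [he₁]; group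
    rw [hu, Perm.mul_apply, Perm.mul_apply, Perm.mul_apply, e2N _ (hNN _ (hVN _ hz')), e]
    simp only [Perm.mul_apply]
    rw [gx _ a5, ← a4, gi _ a1, gx _ a2, a3, ia, hg]
    simp
  have hβ : ∀ n, β n ∈ Sup B := fun n => hA _ (β2 n).1
  have u1 : ∀ n, ∀ t ∈ B, u ((x ^ n) t) = (x ^ n) (β n t) := fun n t ht => by
    have e : A n t = A (n + 1) (β n t) := by rw [A1, Perm.mul_apply, ia]
    rw [uV _ (pow_in h1 n (hB t ht).1), Φ1 n t ht, pw, e, ← Φ1 _ _ (sup_map (hβ n) ht), ia,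
      ← pw, ia]
  have u2 : ∀ z ∈ V, (∀ n, ∀ t ∈ B, (x ^ n) t ≠ z) → u z = z := fun z hz h => by
    have e : Φ (x z) = x z := Φ2 _ fun n t ht e => by
      cases n with
      | zero => exact (hB t ht).2 (by rw [show t = x z from e, ia]; exact hz)
      | succ n => exact h n t ht (x.injective ((pw x n t).trans e))
    rw [uV z hz, Φ2 z h, ← e, ia, ia]
  let D : Set X := {z | (z ∈ N ∪ C ∧ z ∉ V) ∨ ∃ i, ∃ t ∈ B, (x ^ ((2 * i + 1) * (k + 1))) t = z}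
  have DB : ∀ z ∈ D, z ∉ B := by
    rintro z (hz | ⟨i, t, ht, rfl⟩) h
    · exact hz.2 (hB z h).1
    · exact absurd (slot_eq h1 hB ht h (m := 0) rfl) (by positivity)
  have uD : ∀ z, z ∉ B → z ∉ D → u z = z := fun z hz hz' => by
    by_cases h : z ∈ V
    swap
    · exact uS z fun h' => hz' (Or.inl ⟨h', h⟩)
    by_cases hs : ∀ n, ∀ t ∈ B, (x ^ n) t ≠ z
    · exact u2 z h hs
    push Not at hs
    obtain ⟨n, t, ht, rfl⟩ := hs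
    rw [u1 n t ht, (β2 n).2 (by rintro rfl; exact hz ht)
      fun ⟨i, hi⟩ => hz' (Or.inr ⟨i, t, ht, by rw [hi]⟩)]
    rfl
  have r1 : l₁⁻¹ * u ∈ Sup D := fun z hz => by
    rw [Perm.mul_apply]
    by_cases h : z ∈ B
    · rw [show u z = l₁ z from β0 ▸ u1 0 z h, ia]
    · rw [uD z h hz, inv_mem (hA _ hl1) z h]
  have r2 : l₂⁻¹ * ((x ^ (k + 1))⁻¹ * u * x ^ (k + 1)) ∈
      Sup {z | z ∉ B ∧ ((x ^ (k + 1)) z ∈ B ∨ (x ^ (k + 1)) z ∈ D)} := fun z hz => by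
    simp only [Perm.mul_apply]
    by_cases h : z ∈ B
    · rw [u1 _ z h, ia, βk, ia]
    · rw [uD _ (fun h' => hz ⟨h, Or.inl h'⟩) fun h' => hz ⟨h, Or.inr h'⟩, ia,
        inv_mem (hA _ hl2) z h]
  have JK : ∀ n, (x ^ n)⁻¹ * u * x ^ n ∈ K' := fun n =>
    mul_mem (mul_mem (inv_mem (pow_mem xK _)) uK) (pow_mem xK _)
  have lK : l₁ * l₂ * l₁⁻¹ * l₂⁻¹ ∈ K' := by
    rw [comm_key (sup_comm r1 (hA _ hl2) DB) (sup_comm r2 (hA _ hl1) fun z hz => hz.1)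
      (sup_comm r1 r2 ?_), mul_inv_cancel_left, mul_inv_cancel_left]
    · exact mul_mem (mul_mem (mul_mem uK (JK _)) (inv_mem uK)) (inv_mem (JK _))
    rintro z (⟨hz | hz, hz'⟩ | ⟨i, t, ht, rfl⟩) ⟨-, h | h | ⟨j, t', ht', h⟩⟩
    · exact (hB _ h).2 (by rw [← pw, ia]; exact k1 z hz)
    · exact h.2 (by rw [← pw]; exact h1 _ (k1 z hz))
    · rw [show (2 * j + 1) * (k + 1) = k + 1 + 2 * j * (k + 1) by ring, ← pw_add] at h
      exact hz' ((x ^ (k + 1)).injective h ▸ pow_in h1 _ (hB _ ht').1)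
    · exact (k2 z hz).1 (hVN _ (hB _ h).1)
    · exact h.1.elim (k2 z hz).1 (k2 z hz).2
    · exact (k2 z hz).1 (h ▸ hVN _ (pow_in h1 _ (hB _ ht').1))
    · rw [pw_add] at h
      exact absurd (slot_eq h1 hB ht h (m := 0) rfl) (by positivity)
    · exact h.2 (pow_in h1 _ (pow_in h1 _ (hB _ ht).1))
    · rw [pw_add] at h
      have := slot_eq h1 hB ht' ht h
      rw [show k + 1 + (2 * i + 1) * (k + 1) = (2 * i + 2) * (k + 1) by ring] at this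
      have := Nat.eq_of_mul_eq_mul_right (Nat.succ_pos k) this
      omega
  have lB : l₁ * l₂ * l₁⁻¹ * l₂⁻¹ ∈ 𝒜 :=
    mul_mem (mul_mem (mul_mem hl1 hl2) (inv_mem hl1)) (inv_mem hl2)
  have hc := mul_mem (mul_mem (JK ((2 * (i + 1) + 1) * (k + 1))) lK)
    (inv_mem (JK ((2 * (i + 1) + 1) * (k + 1))))
  rw [sup_cong (e' := b i) (hA _ lB) fun t ht => by
    rw [Perm.mul_apply, Perm.mul_apply, u1 _ t ht, ia, β1], mK, sup_cong (e' := 1)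
    (hA _ (mul_mem (mul_mem (hb i) lB) (inv_mem (hb i)))) ΦB] at hc
  simpa using hc

end Pool.Agent.Lib.MP_a2d0bb_al.CM
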