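import Pool.Agent.Lib.MP_a2d0bb_al.CM.Top

/-!
Fragmentation, admissible data, linear models near critical points.
-/

set_option autoImplicit false
set_option linter.unusedSectionVars false

open Equiv Set Metric Filter
open scoped Topology NNReal InnerProductSpace

namespace Pool.Agent.Lib.MP_a2d0bb_al.CM

variable {M : Type*} [TopologicalSpace M] [T2Space M] [CompactSpace M]
  {E : Type*} [NormedAddCommGroup E] [InnerProductSpace ℝ E] [FiniteDimensional ℝ E]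

theorem frag {H : Subgroup (Perm M)} (hH : ∀ z, ∃ U ∈ 𝓝 z, Loc H U) : ∀ h ∈ Gen M E, h ∈ H := by
  rintro h ⟨h0, ι, c, r, hs, h1⟩
  by_cases hr : r < 0
  · rw [show h = 1 from Equiv.ext fun z => h1 z (by simp [closedBall_eq_empty.2 hr])]
    exact one_mem _
  have hc : c ∈ ι.source := hs (mem_closedBall_self (not_lt.1 hr))
  obtain ⟨U, U1, U2⟩ := hH (ι c)
  obtain ⟨ε, ε0, hε⟩ := Metric.mem_nhds_iff.1 (ι.continuousAt hc U1)
  have hD := (isCompact_closedBall c r).image_of_continuousOn (ι.continuousOn.mono hs)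
  have hT : ι '' closedBall c r ⊆ ι.target := by
    rintro _ ⟨z, hz, rfl⟩
    exact ι.map_source (hs hz)
  obtain ⟨y, ⟨⟨y0, y1⟩, y2⟩, y3, y4⟩ := cover (H ⊓ Cts M ⊓ Sup ι.target)
    (fun m => ‖ι.symm m - c‖ ^ 2) (((isCompact_closedBall c r).diff
      (isOpen_ball (x := c) (ε := ε))).image_of_continuousOn
      (ι.continuousOn.mono (sdiff_subset.trans hs))) (by
    rintro _ ⟨z, hz, rfl⟩
    obtain ⟨U, U1, U2⟩ := hH (ι z)
    obtain ⟨O, o1, a, a1, ⟨K, k1, k2, k3⟩, a2⟩ := regpush ι (fun m => ‖ι.symm m - c‖ ^ 2) (hs hz.1)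
      (g' := fun z => 2 • (innerSL ℝ (z - c)).comp (ContinuousLinearMap.id ℝ E)) (by
        filter_upwards [ι.open_source.mem_nhds (hs hz.1)] with z' hz'
        refine ((hasFDerivAt_id z').sub_const c).norm_sq.congr_of_eventuallyEq ?_
        filter_upwards [ι.open_source.mem_nhds hz'] with t ht
        rw [ι.left_inv ht, id])
      (by fun_prop) (fun e => hz.2 (by
        have := congrArg (fun A : E →L[ℝ] ℝ => A (z - c)) e
        rw [show z = c by simpa [← inner_sub_left, sub_eq_zero] using this]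
        exact mem_ball_self ε0))
      (inter_mem U1 (ι.open_target.mem_nhds (ι.map_source (hs hz.1))))
    exact ⟨O, o1, a, ⟨⟨U2 a a1.1 K k1 (k2.trans inter_subset_left) k3, a1.1⟩,
      sup_mono k3 fun _ h => (k2 h).2⟩, a2⟩)
  have yD : ∀ m ∈ ι '' closedBall c r, y m ∈ ι '' closedBall c r := fun m hm => by
    rcases y3 m with e | e
    · rwa [e]
    refine ⟨_, mem_closedBall_iff_norm.2 ?_, ι.right_inv (sup_map y2 (hT hm))⟩
    obtain ⟨z, hz, rfl⟩ := hm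
    simp only [ι.left_inv (hs hz)] at e
    exact (lt_of_pow_lt_pow_left₀ 2 (norm_nonneg _) e).le.trans (mem_closedBall_iff_norm.1 hz)
  obtain ⟨N, hN⟩ := iter hD (((ι.continuousOn_symm.mono hT).sub continuousOn_const).norm.pow 2)
    y1 yD y3 (t := ε ^ 2) (by
      rintro _ ⟨z, hz, rfl⟩ h
      refine y4 _ ⟨z, ⟨hz, fun h' => ?_⟩, rfl⟩
      change ε ^ 2 ≤ ‖ι.symm (ι z) - c‖ ^ 2 at h
      rw [ι.left_inv (hs hz)] at h
      exact h.not_gt (pow_lt_pow_left₀ (mem_ball_iff_norm.1 h') (norm_nonneg _) two_ne_zero))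
  refine U2.conj (pow_mem y0 N) (pow_mem y1 N) (fun m hm => ?_) h h0 _ hD Subset.rfl h1
  rw [← ι.right_inv (hT (pow_in yD N hm))]
  exact hε (mem_ball_iff_norm.2 (lt_of_pow_lt_pow_left₀ 2 ε0.le (hN m hm)))

theorem gen_cts : Subgroup.closure (Gen M E) ≤ Cts M := (Subgroup.closure_le _).2 fun _ h => h.1

/-- Products of continuous permutations supported in the sets `B i`. -/
def Ad {I : Type*} {B : I → Set M} (hB : Dj B) : Subgroup (Perm M) where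
  carrier := {a | ∃ F : I → Perm M, (∀ i, F i ∈ Cts M) ∧ (∀ i, F i ∈ Sup (B i)) ∧ Pr F a}
  one_mem' := ⟨fun _ => 1, fun _ => one_mem _, fun _ => one_mem _,
    fun _ => ⟨fun _ h => (h rfl).elim, fun _ => rfl⟩⟩
  mul_mem' := fun ⟨_, a1, a2, a3⟩ ⟨_, b1, b2, b3⟩ => ⟨_, fun i => mul_mem (a1 i) (b1 i),
    fun i => mul_mem (a2 i) (b2 i), a3.mul b3 hB a2 b2⟩
  inv_mem' := fun ⟨_, a1, a2, a3⟩ => ⟨_, fun i => inv_mem (a1 i), fun i => inv_mem (a2 i),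
    a3.inv hB a2⟩

theorem ad_one {I : Type*} {B : I → Set M} (hB : Dj B) (i : I) {a : Perm M} (h : a ∈ Cts M)
    (h' : a ∈ Sup (B i)) : a ∈ Ad hB := by
  classical
  refine ⟨_, fun j => ?_, fun j => ?_, pr_one i a⟩ <;> split_ifs with e
  exacts [h, one_mem _, e ▸ h', one_mem _]

theorem ad_sup {I : Type*} {B : I → Set M} (hB : Dj B) {a : Perm M} (h : a ∈ Ad hB) :
    a ∈ Sup (⋃ i, B i) := by
  obtain ⟨F, -, h1, h2⟩ := h
  exact h2.sup fun i => sup_mono (h1 i) fun _ hz => mem_iUnion.2 ⟨i, hz⟩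

theorem msw [TopologicalSpace.MetrizableSpace M] {I : Type*} [Finite I] {V B : I → Set M}
    (hB : Dj B) (hV : Dj V) {p : I → M} {x : Perm M} (hx : x ∈ Cts M) {G : Subgroup (Perm M)}
    (hG : ∀ i, ∀ a ∈ Cts M, a ∈ Sup (V i) → a ∈ G)
    (h1 : ∀ i, ∀ z ∈ V i, x z ∈ V i) (h2 : ∀ i, ∀ z ∈ B i, z ∈ V i ∧ x⁻¹ z ∉ V i)
    (hp : ∀ i, ∀ O ∈ 𝓝 (p i), ∀ᶠ n in atTop, ∀ t ∈ B i, (x ^ n) t ∈ O)
    (A : ℕ → Perm M) (hA : ∀ n, A n ∈ Ad hB) : ∃ Φ ∈ G, Sw x (⋃ i, B i) A Φ := by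
  choose F F0 F1 F2 using hA
  choose Φ Φ0 Φ1 using fun i => swindle hx (h1 i) (h2 i) (hp i) (fun n => F n i)
    fun n => ⟨F0 n i, F1 n i⟩
  have s := fun i => (Φ1 i).sup (h1 i) fun z hz => (h2 i z hz).1
  obtain ⟨g, g0, g1, g2⟩ := fglue hV s (fun i => hG i _ (Φ0 i) (s i)) (toFinite _)
  refine ⟨g, g0, fun n t ht => ?_, fun z hz => ?_⟩
  · obtain ⟨i, hi⟩ := mem_iUnion.1 ht
    rw [g1 i _ (pow_in (h1 i) n (h2 i t hi).1), (Φ1 i).1 n t hi, (F2 n).on hB (F1 n) hi]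
  · by_cases h : ∃ i, z ∈ V i
    · obtain ⟨i, hi⟩ := h
      rw [g1 i z hi, (Φ1 i).2 z fun n t ht => hz n t (mem_iUnion.2 ⟨i, ht⟩)]
    · exact g2 z (not_exists.1 h)

/-- A map that halves the distance to `c` near `c`. -/
theorem half (ι : OpenPartialHomeomorph E M) (c : E) {r : ℝ} (hr : 0 < r)
    (hs : closedBall c (3 * r) ⊆ ι.source) :
    ∃ h ∈ Cts M, h ∈ Sup (ι '' closedBall c (3 * r)) ∧ ∀ z, ‖z - c‖ ≤ 3 * r → ∃ s : ℝ, 0 ≤ s ∧
      s ≤ 1 / 2 ∧ h (ι z) = ι (z - s • (z - c)) ∧ (‖z - c‖ ≤ r → s = 1 / 2) ∧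
      (‖z - c‖ < 3 * r → 0 < s) := by
  have key := fun (κ : ℝ) (h0 : 0 ≤ κ) (h1 : κ ≤ 1 / 3) => push ι c (K := κ) (L := 3 * κ) hr hs
    (fun z => -(κ • (z - c))) (fun z z' => by
      rw [neg_sub_neg, ← smul_sub, sub_sub_sub_cancel_right, norm_smul, Real.norm_of_nonneg h0,
        norm_sub_rev]) (fun z hz => by
      rw [norm_neg, norm_smul, Real.norm_of_nonneg h0]; nlinarith) h0 (by linarith)
  obtain ⟨a, a0, a1, a2⟩ := key (1 / 4) (by norm_num) (by norm_num)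
  obtain ⟨b, b0, b1, b2⟩ := key (1 / 3) (by norm_num) (by norm_num)
  refine ⟨b * a, mul_mem b0 a0, mul_mem b1 a1, fun z hz => ?_⟩
  obtain ⟨s, s0, s1, s2, s3, s4⟩ := a2 z (hs (mem_closedBall_iff_norm.2 hz))
  have e : ‖z + s • -((1 / 4 : ℝ) • (z - c)) - c‖ ≤ ‖z - c‖ := by
    rw [show z + s • -((1 / 4 : ℝ) • (z - c)) - c = (1 - s / 4) • (z - c) by module, norm_smul,
      Real.norm_of_nonneg (by linarith)]
    nlinarith [norm_nonneg (z - c)]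
  obtain ⟨t, t0, t1, t2, t3, -⟩ := b2 _ (hs (mem_closedBall_iff_norm.2 (e.trans hz)))
  refine ⟨s / 4 + t / 3 * (1 - s / 4), by nlinarith, by nlinarith, ?_, fun h => ?_,
    fun h => by nlinarith [s4 h]⟩
  · rw [Perm.mul_apply, s2, t2]
    congr 1
    module
  · rw [s3 h, t3 (e.trans h)]; norm_num

theorem half_pow {ι : OpenPartialHomeomorph E M} {c : E} {r : ℝ} {h : Perm M}
    (hh : ∀ z, ‖z - c‖ ≤ r → h (ι z) = ι (c + (1 / 2 : ℝ) • (z - c))) (n : ℕ) {z : E}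
    (hz : ‖z - c‖ ≤ r) : (h ^ n) (ι z) = ι (c + (1 / 2 : ℝ) ^ n • (z - c)) := by
  induction n with
  | zero => simp
  | succ n ih =>
    rw [← pw, ih, hh, add_sub_cancel_left, smul_smul, pow_succ']
    rw [add_sub_cancel_left, norm_smul, Real.norm_of_nonneg (by positivity)]
    exact (mul_le_of_le_one_left (norm_nonneg _) (pow_le_one₀ (by norm_num) (by norm_num))).trans hz

theorem half_lim {ι : OpenPartialHomeomorph E M} {c : E} {r : ℝ} {h : Perm M} (hc : c ∈ ι.source)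
    (hh : ∀ z, ‖z - c‖ ≤ r → h (ι z) = ι (c + (1 / 2 : ℝ) • (z - c))) {B : Set E}
    (hB : ∀ z ∈ B, ‖z - c‖ ≤ r) : ∀ O ∈ 𝓝 (ι c), ∀ᶠ n in atTop, ∀ t ∈ ι '' B, (h ^ n) t ∈ O := by
  intro O hO
  obtain ⟨ε, ε0, hε⟩ := Metric.mem_nhds_iff.1 (ι.continuousAt hc hO)
  have := (tendsto_pow_atTop_nhds_zero_of_lt_one (r := (1 / 2 : ℝ)) (by norm_num)
    (by norm_num)).mul_const r
  rw [zero_mul] at this
  filter_upwards [this.eventually_lt_const ε0] with n hn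
  rintro _ ⟨z, hz, rfl⟩
  rw [half_pow hh n (hB z hz)]
  refine hε (mem_ball_iff_norm.2 ?_)
  rw [add_sub_cancel_left, norm_smul, Real.norm_of_nonneg (by positivity)]
  exact (mul_le_mul_of_nonneg_left (hB z hz) (by positivity)).trans_lt hn

/-- The shear along the unit vector `v`. -/
theorem tube (ι : OpenPartialHomeomorph E M) (hs : closedBall 0 4 ⊆ ι.source) {v : E}
    (hv : ‖v‖ = 1) {δ : ℝ} (h0 : 0 < δ) (h1 : δ ≤ 1 / 4) :
    ∃ f ∈ Cts M, f ∈ Sup (ι '' closedBall 0 4) ∧ ∃ θ : E → ℝ,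
      (∀ z ∈ ι.source, f (ι z) = ι (z + θ z • v)) ∧ (∀ z, 0 ≤ θ z ∧ θ z ≤ δ) ∧
      (∀ z, ‖z‖ ≤ 1 / 2 → θ z = δ) ∧
      ∀ z (s : ℝ), |⟪z, v⟫_ℝ| ≤ 1 → |⟪z, v⟫_ℝ + s| ≤ 1 → θ (z + s • v) = θ z := by
  obtain ⟨θ, hθ⟩ : ∃ θ : E → ℝ, ∀ z, θ z =
    δ * max 0 (min (min 1 (2 - |⟪z, v⟫_ℝ|)) (2 - ‖z - ⟪z, v⟫_ℝ • v‖)) := ⟨_, fun _ => rfl⟩
  have t1 : ∀ z, |⟪z, v⟫_ℝ| ≤ ‖z‖ := fun z => by simpa [hv] using abs_real_inner_le_norm z v
  have t2 : ∀ z, ‖⟪z, v⟫_ℝ • v‖ = |⟪z, v⟫_ℝ| := fun z => by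
    rw [norm_smul, hv, mul_one, Real.norm_eq_abs]
  have t3 : ∀ z, ‖z - ⟪z, v⟫_ℝ • v‖ ≤ 2 * ‖z‖ := fun z => by
    linarith [norm_sub_le z (⟪z, v⟫_ℝ • v), t1 z, t2 z]
  obtain ⟨a, a0, a1⟩ := lip_perm (fun z => θ z • v) (K := 2 * δ) (by linarith) fun z z' => by
    rw [← sub_smul, norm_smul, hv, mul_one, Real.norm_eq_abs, hθ, hθ, ← mul_sub, abs_mul,
      abs_of_pos h0, mul_comm 2, mul_assoc, max_comm, max_comm 0]
    refine mul_le_mul_of_nonneg_left ((abs_max_sub_max_le_abs _ _ _).trans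
      ((abs_min_sub_min_le_max _ _ _ _).trans (max_le ((abs_min_sub_min_le_max _ _ _ _).trans
      (max_le (by rw [sub_self, abs_zero]; positivity) ?_)) ?_))) h0.le
    · rw [sub_sub_sub_cancel_left, abs_sub_comm]
      refine (abs_abs_sub_abs_le _ _).trans ?_
      rw [← inner_sub_left]
      linarith [t1 (z - z'), norm_nonneg (z - z')]
    · rw [sub_sub_sub_cancel_left, abs_sub_comm]
      refine (abs_norm_sub_norm_le _ _).trans (le_of_eq_of_le ?_ (t3 (z - z')))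
      rw [inner_sub_left]
      congr 1
      module
  obtain ⟨b, b0, b1, b2⟩ := transfer ι (isCompact_closedBall 0 4) hs a0 fun z hz => by
    have h4 : 4 < ‖z‖ := not_le.1 fun h => hz (mem_closedBall_zero_iff.2 h)
    have h5 := norm_add_le (z - ⟪z, v⟫_ℝ • v) (⟪z, v⟫_ℝ • v)
    rw [sub_add_cancel, t2] at h5
    rw [a1, hθ, max_eq_left, mul_zero, zero_smul, add_zero]
    by_contra h
    simp only [not_le, lt_min_iff] at h
    linarith [h.1.2, h.2]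
  refine ⟨b, b0, b1, θ, fun z hz => by rw [b2 z hz, a1], fun z => ?_, fun z hz => ?_,
    fun z s h2 h3 => ?_⟩
  · rw [hθ]
    exact ⟨by positivity, mul_le_of_le_one_right h0.le
      (max_le zero_le_one ((min_le_left _ _).trans (min_le_left _ _)))⟩
  · rw [hθ, min_eq_left (by linarith [t1 z] : 1 ≤ 2 - |⟪z, v⟫_ℝ|),
      min_eq_left (by linarith [t3 z]), max_eq_right zero_le_one, mul_one]
  · have e : ⟪z + s • v, v⟫_ℝ = ⟪z, v⟫_ℝ + s := by
      rw [inner_add_left, real_inner_smul_left, real_inner_self_eq_norm_sq, hv]; ring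
    rw [hθ, hθ, e, min_eq_left (by linarith : 1 ≤ 2 - |⟪z, v⟫_ℝ|),
      min_eq_left (by linarith : 1 ≤ 2 - |⟪z, v⟫_ℝ + s|),
      show z + s • v - (⟪z, v⟫_ℝ + s) • v = z - ⟪z, v⟫_ℝ • v by module]

end Pool.Agent.Lib.MP_a2d0bb_al.CM
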