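import Pool.Agent.Lib.MP_a2d0bb_al.CM.Sink

/-!
The other critical points, and the assembly.
-/

set_option autoImplicit false
set_option linter.unusedSectionVars false

open Equiv Set Metric Filter
open scoped Topology Manifold ContDiff InnerProductSpace

namespace Pool.Agent.Lib.MP_a2d0bb_al.CM

variable {M : Type*} [TopologicalSpace M] [T2Space M] [CompactSpace M]
  {E : Type*} [NormedAddCommGroup E] [InnerProductSpace ℝ E] [FiniteDimensional ℝ E] [Nontrivial E]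
  {I : Type*} {κ : I → OpenPartialHomeomorph E M} {v : I → E} {x f : Perm M}
  {W : I → E →L[ℝ] E} {μ : I → ℝ}

theorem tubes [Finite I] (hs : ∀ i z, ‖z‖ ≤ 16 → z ∈ (κ i).source)
    (inj : ∀ i j z w, ‖z‖ ≤ 16 → ‖w‖ ≤ 16 → κ i z = κ j w → i = j ∧ z = w)
    (hv : ∀ i, ‖v i‖ = 1) {δ : I → ℝ} (h0 : ∀ i, 0 < δ i) (h1 : ∀ i, δ i ≤ 1 / 4) :
    ∃ f ∈ Subgroup.closure (Gen M E), f ∈ Sup (⋃ i, κ i '' closedBall 0 4) ∧ ∃ θ : I → E → ℝ,
      (∀ i z, ‖z‖ ≤ 16 → f (κ i z) = κ i (z + θ i z • v i)) ∧ (∀ i z, 0 ≤ θ i z ∧ θ i z ≤ δ i) ∧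
      (∀ i z, ‖z‖ ≤ 1 / 2 → θ i z = δ i) ∧ ∀ i z (s : ℝ), |⟪z, v i⟫_ℝ| ≤ 1 →
        |⟪z, v i⟫_ℝ + s| ≤ 1 → θ i (z + s • v i) = θ i z := by
  have h4 : ∀ i, closedBall 0 4 ⊆ (κ i).source :=
    fun i z hz => hs i z (by linarith [mem_closedBall_zero_iff.1 hz])
  choose t t0 t1 θ t2 t3 t4 t5 using fun i => tube (κ i) (h4 i) (hv i) (h0 i) (h1 i)
  obtain ⟨f, f0, f1, f2⟩ := fglue (dj inj (S := fun _ => closedBall 0 16)
    fun _ _ => mem_closedBall_zero_iff.1) (fun i => sup_mono (t1 i) fun _ h =>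
      image_mono (closedBall_subset_closedBall (by norm_num)) h) (fun i => Subgroup.subset_closure
    (show t i ∈ Gen M E from ⟨t0 i, κ i, 0, _, h4 i, t1 i⟩)) (toFinite _)
  refine ⟨f, f0, fun y hy => ?_, θ, fun i z hz => ?_, t3, t4, t5⟩
  · by_cases h : ∃ i, y ∈ κ i '' closedBall 0 16
    · obtain ⟨i, hi⟩ := h
      rw [f1 i y hi, t1 i y fun h => hy (mem_iUnion.2 ⟨i, h⟩)]
    · exact f2 y (not_exists.1 h)
  · rw [f1 i _ ⟨z, mem_closedBall_zero_iff.2 hz, rfl⟩, t2 i z (hs i z hz)]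

theorem back (hL : ∀ i, Lin (W i) (v i) (μ i))
    (hx : ∀ i z, ‖z‖ ≤ 16 → x (κ i z) = κ i (z + W i z)) : ∀ y ∈ ⋃ i, κ i '' closedBall 0 4,
      y ∈ ⋃ i, κ i '' closedBall 0 8 ∧ x⁻¹ y ∈ ⋃ i, κ i '' closedBall 0 8 := by
  intro y hy
  obtain ⟨i, z, hz, rfl⟩ := mem_iUnion.1 hy
  obtain ⟨a, -, a1⟩ := lip_perm (W i) (K := 1 / 2) (by norm_num) fun z z' => by
    rw [← map_sub]; exact (hL i).le _
  have e : a⁻¹ z + W i (a⁻¹ z) = z := by rw [← a1, ai]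
  have h := norm_sub_le z (W i (a⁻¹ z))
  rw [← eq_sub_of_add_eq e] at h
  have h' : ‖a⁻¹ z‖ ≤ 8 := by linarith [(hL i).le (a⁻¹ z), mem_closedBall_zero_iff.1 hz]
  refine ⟨mem_iUnion.2 ⟨i, z, closedBall_subset_closedBall (by norm_num) hz, rfl⟩,
    mem_iUnion.2 ⟨i, _, mem_closedBall_zero_iff.2 h', ?_⟩⟩
  rw [Perm.eq_inv_iff_eq, hx i _ (by linarith), e]

theorem saddleA (hL : ∀ i, Lin (W i) (v i) (μ i)) (hμ : ∀ i, 0 < μ i)
    (hx : ∀ i z, ‖z‖ ≤ 16 → x (κ i z) = κ i (z + W i z))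
    (f0 : f ∈ Sup (⋃ i, κ i '' closedBall 0 4)) {θ : I → E → ℝ}
    (f1 : ∀ i z, ‖z‖ ≤ 16 → f (κ i z) = κ i (z + θ i z • v i))
    (f2 : ∀ i z, 0 ≤ θ i z ∧ θ i z ≤ (1 + μ i)⁻¹ / 4)
    (f3 : ∀ i z (s : ℝ), |⟪z, v i⟫_ℝ| ≤ 1 → |⟪z, v i⟫_ℝ + s| ≤ 1 → θ i (z + s • v i) = θ i z) :
    (x⁻¹ * f * x)⁻¹ * f * (x⁻¹ * f * x) * f⁻¹ ∈
      Sup (⋃ i, κ i '' {z | ‖z‖ ≤ 8 ∧ (1 + μ i)⁻¹ / 2 < |⟪z, v i⟫_ℝ|}) := by
  intro y hy
  by_cases h : y ∈ ⋃ i, κ i '' closedBall 0 8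
  swap
  · have p : x⁻¹ * f * x ∈ Sup (⋃ i, κ i '' closedBall 0 8) := by
      simpa only [inv_inv] using sup_conj (e := x⁻¹) f0 fun z hz => (back hL hx z hz).2
    have q := sup_mono f0 fun z hz => (back hL hx z hz).1
    exact mul_mem (mul_mem (mul_mem (inv_mem p) q) p) (inv_mem q) y h
  obtain ⟨i, z, hz, rfl⟩ := mem_iUnion.1 h
  have z1 := mem_closedBall_zero_iff.1 hz
  have z2 := abs_le.1 (not_lt.1 fun h => hy (mem_iUnion.2 ⟨i, z, ⟨z1, h⟩, rfl⟩))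
  obtain ⟨v1, v2, v3, -⟩ := hL i
  have l0 := hμ i
  obtain ⟨ν, hν, n0⟩ : ∃ ν, (1 + μ i)⁻¹ = ν ∧ ν * (1 + μ i) = 1 :=
    ⟨_, rfl, inv_mul_cancel₀ (by linarith)⟩
  have t := f2 i
  rw [hν] at t z2
  have n1 : 0 < ν := by rw [← hν]; positivity
  have n2 : ν ≤ 1 := by nlinarith
  have a : ∀ y, ‖y‖ ≤ 10 → (x⁻¹ * f * x) (κ i y) = κ i (y + (ν * θ i (y + W i y)) • v i) :=
    fun y hy => by
      have b1 := t (y + W i y)
      have b2 := nb v1 (mul_nonneg n1.le b1.1) _ y rfl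
      rw [Perm.mul_apply, Perm.mul_apply, Perm.inv_eq_iff_eq, hx i y (by linarith),
        f1 i _ (by linarith [norm_add_le y (W i y), (hL i).le y]), hx i _ (by nlinarith [b2.1]),
        map_add, map_smul, v2, smul_smul]
      congr 1
      rw [show θ i (y + W i y) • v i = (ν * (1 + μ i) * θ i (y + W i y)) • v i by rw [n0, one_mul]]
      module
  obtain ⟨y, y0, y1, y2⟩ : ∃ y, y + θ i y • v i = z ∧ ‖y‖ ≤ 9 ∧ |⟪y, v i⟫_ℝ| ≤ 3 / 4 * ν := by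
    have b1 := t z
    refine ⟨z + (-θ i z) • v i, ?_, by
      linarith [(nb v1 b1.1 z (z + (-θ i z) • v i) (by module)).2.1], ?_⟩
    · rw [f3 i z _ (abs_le.2 ⟨by linarith, by linarith⟩) (abs_le.2 ⟨by linarith, by linarith⟩)]
      module
    · rw [inner_add_left, real_inner_smul_left, real_inner_self_eq_norm_sq, v1]
      exact abs_le.2 ⟨by linarith, by linarith⟩
  obtain ⟨y2, y3⟩ := abs_le.1 y2
  have b1 := t y
  have b2 := t (y + W i y)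
  have b3 := mul_nonneg n1.le b2.1
  have b4 : ν * θ i (y + W i y) ≤ ν / 4 := by nlinarith
  have b5 : ⟪y + W i y, v i⟫_ℝ = (1 + μ i) * ⟪y, v i⟫_ℝ := by rw [inner_add_left, v3]; ring
  have e : f⁻¹ (κ i z) = κ i y := by rw [Perm.inv_eq_iff_eq, f1 i y (by linarith), y0]
  rw [Perm.mul_apply, Perm.mul_apply, Perm.mul_apply, e, Perm.inv_eq_iff_eq, a y (by linarith),
    a z (by linarith), f1 i _ (by linarith [(nb v1 b3 _ y rfl).1]),
    f3 i y _ (abs_le.2 ⟨by linarith, by linarith⟩) (abs_le.2 ⟨by linarith, by linarith⟩),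
    show z + W i z = y + W i y + ((1 + μ i) * θ i y) • v i by
      rw [← y0, map_add, map_smul, v2]; module,
    f3 i _ _ (b5 ▸ abs_le.2 ⟨by nlinarith, by nlinarith⟩)
      (b5 ▸ abs_le.2 ⟨by nlinarith, by nlinarith⟩), ← y0]
  congr 1
  module

theorem saddleB {κ : OpenPartialHomeomorph E M} {W : E →L[ℝ] E} {v : E} {μ R : ℝ} (hL : Lin W v μ)
    (hμ : 0 < μ) (hx : ∀ z, ‖z‖ ≤ R → x (κ z) = κ (z + W z)) {k : ℕ} (hk : 16 ≤ (1 + μ) ^ k)
    (hR : 2 ^ (k + 1) * 8 ≤ R) {z : E} (h1 : ‖z‖ ≤ 8) (h2 : (1 + μ)⁻¹ / 2 < |⟪z, v⟫_ℝ|) :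
    ∃ y, (x ^ (k + 1)) (κ z) = κ y ∧ 8 < ‖y‖ ∧ ‖y‖ ≤ R := by
  have key : ∀ j ≤ k + 1, ∃ y, (x ^ j) (κ z) = κ y ∧ ‖y‖ ≤ 2 ^ j * 8 ∧
      ⟪y, v⟫_ℝ = (1 + μ) ^ j * ⟪z, v⟫_ℝ := fun j hj => by
    induction j with
    | zero => exact ⟨z, rfl, by simpa using h1, by simp⟩
    | succ j ih =>
      obtain ⟨y, y0, y1, y2⟩ := ih (by omega)
      have : (2 : ℝ) ^ j ≤ 2 ^ (k + 1) := pow_le_pow_right₀ one_le_two (by omega)
      refine ⟨y + W y, by rw [← pw, y0, hx y (by linarith)], ?_, ?_⟩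
      · rw [pow_succ]
        linarith [norm_add_le y (W y), hL.le y, norm_nonneg y]
      · rw [inner_add_left, hL.2.2.1, y2]
        ring
  obtain ⟨y, y0, y1, y2⟩ := key _ le_rfl
  refine ⟨y, y0, ?_, y1.trans hR⟩
  have a1 := abs_real_inner_le_norm y v
  rw [hL.1, mul_one, y2, abs_mul, abs_of_pos (by positivity), pow_succ, mul_assoc] at a1
  rw [div_lt_iff₀ two_pos, inv_lt_iff_one_lt_mul₀' (by linarith)] at h2
  nlinarith

theorem main (M E : Type*) [TopologicalSpace M] [T2Space M] [CompactSpace M]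
    [NormedAddCommGroup E] [InnerProductSpace ℝ E] [FiniteDimensional ℝ E] [Nontrivial E]
    [ChartedSpace E M] [IsManifold 𝓘(ℝ, E) ∞ M] :
    ∃ f ∈ Subgroup.closure (Gen M E), ∀ S : Set (Perm M), S.Countable →
      S ⊆ Subgroup.closure (Gen M E) → ∃ g ∈ Subgroup.closure (Gen M E),
        S ⊆ Subgroup.closure ({f, g} : Set (Perm M)) := by
  have := Manifold.metrizableSpace 𝓘(ℝ, E) M
  obtain ⟨φ, F, W, v, μ, φ0, hF, hL, h⟩ := dyn M E
  have := hF.to_subtype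
  obtain ⟨η, h0, h1, h2⟩ : ∃ η : ℝ, 0 < η ∧ 40000 * η ≤ 1 ∧ (1 / 2) ^ 12 * 8 < 96 * η :=
    ⟨1 / 40000, by norm_num, by norm_num, by norm_num⟩
  obtain ⟨k, k1, k2⟩ := ((eventually_ge_atTop 12).and (eventually_all.2
    fun i : {i : F // 0 < μ i} => (tendsto_pow_atTop_atTop_of_one_lt
      (show 1 < 1 + μ i by linarith [i.2])).eventually_ge_atTop 16)).exists
  obtain ⟨R, hR, hR'⟩ : ∃ R : ℝ, 2 ^ (k + 1) * 8 ≤ R ∧ 16 ≤ R := ⟨_, le_max_left _ 16, le_max_right _ _⟩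
  obtain ⟨κ, hs, hd, hq, x, x0, x1, x2⟩ := h R (by linarith)
  have inj : ∀ i j z w, ‖z‖ ≤ R → ‖w‖ ≤ R → κ i z = κ j w → i = j ∧ z = w := fun i j z w a b e => by
    obtain rfl := hd i j z w a b e
    exact ⟨rfl, (κ i).injOn (hs i z a) (hs i w b) e⟩
  have inj' : ∀ p : F → Prop, ∀ (i j : {i // p i}) z w, ‖z‖ ≤ 16 → ‖w‖ ≤ 16 → κ i z = κ j w →
      i = j ∧ z = w := fun p i j z w a b e =>
    (inj i j z w (by linarith) (by linarith) e).imp_left Subtype.ext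
  have hs' : ∀ i z, ‖z‖ ≤ 16 → z ∈ (κ i).source := fun i z a => hs i z (by linarith)
  have x3 : ∀ i z, ‖z‖ ≤ 16 → x (κ i z) = κ i (z + W i z) := fun i z a => x2 i z (by linarith)
  have x4 : ∀ (i : {i : F // μ i < 0}) z, ‖z‖ ≤ 16 → x (κ i z) = κ i ((1 / 2 : ℝ) • z) :=
    fun i z a => by
      rw [x3 i z a, ((hL i).2.2.2.resolve_left fun h => h.1.not_gt i.2).2]
      congr 1
      module
  have sep : ∀ (i : {i : F // μ i < 0}) (j : {i : F // 0 < μ i}) z w, ‖z‖ ≤ 16 → ‖w‖ ≤ 16 →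
      κ i z ≠ κ j w := fun i j z w a b e =>
    i.2.not_gt ((inj _ _ z w (by linarith) (by linarith) e).1 ▸ j.2)
  obtain ⟨f₁, a0, a1, θ₁, a2, -, a3, -⟩ := tubes (κ := fun i : {i : F // μ i < 0} => κ i)
    (fun i => hs' i) (inj' _) (fun i => (hL i).1) (δ := fun _ => 192 * η) (fun _ => by linarith)
    fun _ => by linarith
  have d0 : ∀ i : {i : F // 0 < μ i}, 0 < (1 + μ i)⁻¹ / 4 ∧ (1 + μ i)⁻¹ / 4 ≤ 1 / 4 := fun i =>
    ⟨by have := i.2; positivity, by linarith [inv_le_one_of_one_le₀ (show 1 ≤ 1 + μ i by linarith [i.2])]⟩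
  obtain ⟨f₂, b0, b1, θ₂, b2, b3, b4, b5⟩ := tubes (κ := fun i : {i : F // 0 < μ i} => κ i)
    (fun i => hs' i) (inj' _) (fun i => (hL i).1) (fun i => (d0 i).1) fun i => (d0 i).2
  have a4 : ∀ (i : {i : F // μ i < 0}) z, ‖z‖ ≤ 1 / 2 → f₁ (κ i z) = κ i (z + (192 * η) • v i) :=
    fun i z hz => by rw [a2 i z (by linarith), a3 i z hz]
  have a5 : ∀ (i : {i : F // μ i < 0}) z, ‖z‖ ≤ 1 / 2 →
      (f₁ * f₂) (κ i z) = κ i (z + (192 * η) • v i) := fun i z hz => by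
    rw [Perm.mul_apply, b1, a4 i z hz]
    intro h
    obtain ⟨j, w, hw, e⟩ := mem_iUnion.1 h
    exact sep i j z w (by linarith) (by linarith [mem_closedBall_zero_iff.1 hw]) e.symm
  have sB := sinkB (inj' _) (fun i => (hL i).1) h0 h1 x4
  have hB : Dj fun i : {i : F // μ i < 0} => κ i '' ball ((72 * η) • v i) (24 * η) :=
    dj (inj' _) fun i z hz => by
      linarith [mem_ball_iff_norm.1 hz,
        (nb (hL i).1 (a := 72 * η) (by linarith) z _ (sub_add_cancel _ _).symm).1]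
  obtain ⟨l₁, l1, l₂, l2, l3, l4⟩ := sinkC (I := {i : F // μ i < 0}) (fun i => hs' i) (inj' _)
    (fun i => (hL i).1) h0 h1 hB
  refine ⟨f₁ * f₂, mul_mem a0 b0, extract _ (Ad hB) _ x (l₁ * l₂ * l₁⁻¹ * l₂⁻¹)
    (⋃ i : {i : F // μ i < 0}, κ i '' ball 0 (96 * η)) (core _ _ f₁ f₂ x x0 (k := k)
      (fun a ha => ad_sup hB ha) ?_ ?_ ?_ ?_ ?_ a1
      (back (I := {i : F // μ i < 0}) (fun i => hL i) fun i => x3 i) b1
      (back (I := {i : F // 0 < μ i}) (fun i => hL i) fun i => x3 i)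
      (sinkA (inj' _) (fun i => (hL i).1) h0 h1 x4 a4) (saddleA (I := {i : F // 0 < μ i})
        (fun i => hL i) (fun i => i.2) (fun i => x3 i) b1 b2 b3 b5) ?_ ?_ l1 l2)
    fun H fH lH hH => (Subgroup.closure_le _).2 (frag (spread φ0 (gen_cts x0)
      (gen_cts (mul_mem a0 b0)) fH hH fun y => ?_))⟩
  · intro y hy
    obtain ⟨i, hi⟩ := mem_iUnion.1 hy
    exact mem_iUnion.2 ⟨i, (sB i).1 y hi⟩
  · intro y hy
    obtain ⟨i, hi⟩ := mem_iUnion.1 hy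
    exact ⟨mem_iUnion.2 ⟨i, ((sB i).2 y hi).1⟩, ((sB i).2 y hi).2⟩
  · refine msw hB (dj (inj' _) fun i z hz => by linarith [mem_ball_zero_iff.1 hz]) (gen_cts x0)
      (p := fun i => κ i 0) (fun i a c0 c1 => Subgroup.subset_closure ⟨c0, κ i, 0, 96 * η,
        fun z hz => hs' i z (by linarith [mem_closedBall_zero_iff.1 hz]),
        fun y hy => c1 y fun h => hy (image_mono ball_subset_closedBall h)⟩) (fun i => (sB i).1)
      (fun i y hy => ⟨((sB i).2 y hy).1, fun h => ((sB i).2 y hy).2 (mem_iUnion.2 ⟨i, h⟩)⟩)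
      fun i => half_lim (r := 16) (hs' i 0 (by simp)) (by simpa only [sub_zero, zero_add] using x4 i)
        fun z hz => ?_
    rw [sub_zero]
    linarith [mem_ball_iff_norm.1 hz,
      (nb (hL i).1 (a := 72 * η) (by linarith) z _ (sub_add_cancel _ _).symm).1]
  · exact iUnion_mono fun i => image_mono (ball_subset_closedBall.trans
      (closedBall_subset_closedBall (by linarith)))
  · intro y hy hy'
    obtain ⟨i, z, hz, rfl⟩ := mem_iUnion.1 hy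
    obtain ⟨j, w, hw, e⟩ := mem_iUnion.1 hy'
    exact sep i j z w (by linarith [mem_closedBall_zero_iff.1 hz])
      (by linarith [mem_closedBall_zero_iff.1 hw]) e.symm
  · intro y hy
    obtain ⟨i, z, hz, rfl⟩ := mem_iUnion.1 hy
    have c0 := mem_closedBall_zero_iff.1 hz
    have c1 : (1 / 2 : ℝ) ^ k ≤ (1 / 2) ^ 12 := pow_le_pow_of_le_one (by norm_num) (by norm_num) k1
    refine mem_iUnion.2 ⟨i, _, mem_ball_zero_iff.2 ?_, (half_pow (c := 0) (r := 16)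
      (by simpa only [sub_zero, zero_add] using x4 i) k (by rw [sub_zero]; linarith)).symm⟩
    rw [zero_add, sub_zero, norm_smul, Real.norm_of_nonneg (by positivity)]
    exact (mul_le_mul c1 c0 (norm_nonneg _) (by positivity)).trans_lt h2
  · intro y hy
    obtain ⟨i, z, hz, rfl⟩ := mem_iUnion.1 hy
    obtain ⟨y, y0, y1, y2⟩ := saddleB (hL i) i.2 (x2 i) (k2 i) hR hz.1 hz.2
    have key : ∀ j w, ‖w‖ ≤ 8 → κ j w ≠ κ i y := fun j w hw e =>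
      y1.not_ge ((inj j i w y (by linarith) y2 e).2 ▸ hw)
    rw [y0]
    constructor <;> intro h <;> obtain ⟨j, w, hw, e⟩ := mem_iUnion.1 h
    exacts [key j w (mem_closedBall_zero_iff.1 hw) e, key j w hw.1 e]
  by_cases hy : y ∈ ⋃ i : {i : F // μ i < 0}, κ i '' closedBall 0 (96 * η)
  · obtain ⟨i, z, hz, rfl⟩ := mem_iUnion.1 hy
    have := mem_closedBall_zero_iff.1 hz
    exact Or.inl ⟨_, (κ i).image_mem_nhds (hs' i z (by linarith)) (isOpen_ball.mem_nhds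
      (mem_ball_zero_iff.2 (by linarith))), sinkD (I := {i : F // μ i < 0}) (fun i => hs' i) (inj' _)
        (fun i => (hL i).1) h0 h1 x4 a5 hB l3 l4 (gen_cts x0) (gen_cts (mul_mem a0 b0)) fH lH hH i⟩
  by_cases hy' : ∀ i, y ≠ κ i 0
  · refine Or.inr (Or.inr ⟨mem_of_superset ((isClosed_iUnion_of_finite fun i : {i : F // μ i < 0} =>
      ((isCompact_closedBall 0 (96 * η)).image_of_continuousOn ((κ i).continuousOn.mono
        fun z hz => hs' i z (by linarith [mem_closedBall_zero_iff.1 hz]))).isClosed).isOpen_compl.mem_nhds hy)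
      (compl_subset_compl.2 (iUnion_mono fun i => image_mono ball_subset_closedBall)), x1 y hy'⟩)
  obtain ⟨i, rfl⟩ := not_forall_not.1 hy'
  have hi : 0 < μ i := (hL i).2.2.2.elim (fun h => h.1) fun h =>
    (hy (mem_iUnion.2 ⟨⟨i, h.1⟩, 0, mem_closedBall_self (by linarith), rfl⟩)).elim
  obtain ⟨d1, d2⟩ := d0 ⟨i, hi⟩
  refine Or.inr (Or.inl ?_)
  rw [Perm.mul_apply, b2 ⟨i, hi⟩ 0 (by simp), b4 _ 0 (by simp), zero_add, a1]
  · exact hq i hi _ d1 (by linarith)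
  · intro h
    obtain ⟨j, w, hw, e⟩ := mem_iUnion.1 h
    refine sep j ⟨i, hi⟩ w _ (by linarith [mem_closedBall_zero_iff.1 hw]) ?_ e
    rw [norm_smul, (hL i).1, Real.norm_of_nonneg d1.le]
    linarith

end Pool.Agent.Lib.MP_a2d0bb_al.CM
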