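import Pool.Agent.Lib.MP_a2d0bb_al.CM.Morse

/-!
A homeomorphism that decreases a Morse function and is linear near the critical points.
-/

set_option autoImplicit false
set_option linter.unusedSectionVars false

open Equiv Set Metric Filter
open scoped Topology Manifold ContDiff InnerProductSpace

namespace Pool.Agent.Lib.MP_a2d0bb_al.CM

variable {M : Type*} [TopologicalSpace M] [T2Space M] [CompactSpace M]
  {E : Type*} [NormedAddCommGroup E] [InnerProductSpace ℝ E] [FiniteDimensional ℝ E] [Nontrivial E]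

theorem lin (B : E →L[ℝ] E →L[ℝ] ℝ) (hs : ∀ u w, B u w = B w u) (hi : Function.Injective B) :
    ∃ (W : E →L[ℝ] E) (v : E) (μ m : ℝ), 0 < m ∧ ‖v‖ = 1 ∧ W v = μ • v ∧
      (∀ z, ⟪W z, v⟫_ℝ = μ * ⟪z, v⟫_ℝ) ∧
      (∀ z (τ : ℝ), 0 ≤ τ → τ ≤ 1 → B (z + τ • W z) (W z) ≤ -m * ‖z‖ ^ 2) ∧
      ((0 < μ ∧ (∀ z, ‖W z‖ ≤ 1 / 3 * ‖z‖) ∧ B v v ≤ -m) ∨
        (μ < 0 ∧ ∀ z, W z = -((1 / 2 : ℝ) • z))) := by
  have := FiniteDimensional.complete ℝ E
  obtain ⟨A, hA⟩ : ∃ A : E →L[ℝ] E, ∀ u w, ⟪A u, w⟫_ℝ = B u w :=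
    ⟨_, InnerProductSpace.continuousLinearMapOfBilin_apply (𝕜 := ℝ) B⟩
  have sym : ∀ u w, ⟪A u, w⟫_ℝ = ⟪u, A w⟫_ℝ := fun u w => by rw [hA, hs, ← hA, real_inner_comm]
  have inj : ∀ z, A z = 0 → z = 0 := fun z hz => (injective_iff_map_eq_zero _).1 hi z
    (ContinuousLinearMap.ext fun w => by rw [← hA, hz, inner_zero_left]; rfl)
  obtain ⟨v, v1, v2⟩ := (isCompact_sphere (0 : E) 1).exists_isMinOn
    (NormedSpace.sphere_nonempty.2 zero_le_one) A.reApplyInnerSelf_continuous.continuousOn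
  have hv : ‖v‖ = 1 := mem_sphere_zero_iff_norm.1 v1
  have v0 : v ≠ 0 := norm_ne_zero_iff.1 (by rw [hv]; exact one_ne_zero)
  obtain ⟨μ, hμ⟩ : ∃ μ : ℝ, A v = μ • v := ⟨_, ((ContinuousLinearMap.isSelfAdjoint_iff_isSymmetric.2
    sym).hasEigenvector_of_isMinOn v0 (by rwa [hv])).apply_eq_smul⟩
  have vv : B v v = μ := by rw [← hA, hμ, real_inner_smul_left, real_inner_self_eq_norm_sq, hv]; ring
  rcases lt_or_gt_of_ne (show μ ≠ 0 by rintro rfl; exact v0 (inj v (by rw [hμ, zero_smul]))) with h | h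
  · obtain ⟨K, K0, hK⟩ := LinearMap.exists_antilipschitzWith A.toLinearMap
      (LinearMap.ker_eq_bot'.2 inj)
    obtain ⟨ε, ε0, hε⟩ : ∃ ε : ℝ, 0 < ε ∧ ∀ z, ε * ‖A z‖ ≤ 1 / 3 * ‖z‖ :=
      ⟨1 / (3 * (‖A‖ + 1)), by positivity, fun z => by
        rw [div_mul_eq_mul_div, div_le_iff₀ (by positivity)]
        nlinarith [A.le_opNorm z, norm_nonneg z]⟩
    have K1 : (0 : ℝ) < K := K0
    refine ⟨-(ε • A), v, -(ε * μ), min (ε / 2 / K ^ 2) (-μ), lt_min (by positivity) (by linarith), hv,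
      by simp [hμ, smul_smul], fun z => ?_, fun z τ t0 t1 => ?_, Or.inl ⟨by nlinarith, fun z => ?_,
      by linarith [min_le_right (ε / 2 / K ^ 2) (-μ)]⟩⟩
    · simp [real_inner_smul_left, real_inner_smul_right, sym, hμ, mul_assoc]
    · have a1 : ‖z‖ ≤ K * ‖A z‖ := by simpa using hK.le_mul_dist z 0
      have a2 : ε * ⟪A (A z), A z⟫_ℝ ≤ 1 / 3 * ‖A z‖ ^ 2 := by
        nlinarith [real_inner_le_norm (A (A z)) (A z), hε (A z), norm_nonneg (A z)]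
      have a3 : ε / 2 / K ^ 2 * ‖z‖ ^ 2 ≤ ε / 2 * ‖A z‖ ^ 2 := by
        rw [div_mul_eq_mul_div, div_le_iff₀ (by positivity), mul_assoc, ← mul_pow, mul_comm _ (K : ℝ)]
        gcongr
      have a4 := mul_le_mul_of_nonneg_right (min_le_left (ε / 2 / K ^ 2) (-μ)) (sq_nonneg ‖z‖)
      have a5 : B (z + τ • (-(ε • A)) z) ((-(ε • A)) z) =
          -(ε * ‖A z‖ ^ 2) + τ * ε * (ε * ⟪A (A z), A z⟫_ℝ) := by
        rw [← hA, ← real_inner_self_eq_norm_sq]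
        simp [inner_add_left, real_inner_smul_left, real_inner_smul_right]
        ring
      have a6 := mul_le_mul_of_nonneg_left a2 (mul_nonneg t0 ε0.le)
      have a7 := mul_le_mul_of_nonneg_right t1 (show 0 ≤ ε * ‖A z‖ ^ 2 by positivity)
      rw [a5]
      nlinarith [show 0 ≤ ε * ‖A z‖ ^ 2 by positivity]
    · simpa [norm_smul, abs_of_pos ε0] using hε z
  · refine ⟨-((1 / 2 : ℝ) • ContinuousLinearMap.id ℝ E), v, -(1 / 2), μ / 4, by linarith, hv,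
      by simp, fun z => by simp [real_inner_smul_left], fun z τ t0 t1 => ?_,
      Or.inr ⟨by norm_num, fun z => by simp⟩⟩
    have a1 : μ * ‖z‖ ^ 2 ≤ B z z := by
      by_cases hz : z = 0
      · simp [hz]
      have z0 := norm_pos_iff.2 hz
      have : B v v ≤ B (‖z‖⁻¹ • z) (‖z‖⁻¹ • z) := by
        rw [← hA, ← hA]
        exact v2 (mem_sphere_zero_iff_norm.2 (norm_smul_inv_norm (𝕜 := ℝ) hz))
      simp only [vv, map_smul, smul_apply, smul_eq_mul] at this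
      rwa [← mul_assoc, ← mul_inv, ← sq, ← div_eq_inv_mul, le_div_iff₀ (by positivity)] at this
    have a2 : B (z + τ • (-((1 / 2 : ℝ) • ContinuousLinearMap.id ℝ E)) z)
        ((-((1 / 2 : ℝ) • ContinuousLinearMap.id ℝ E)) z) = -((2 - τ) / 4 * B z z) := by
      simp
      ring
    rw [a2]
    nlinarith [mul_nonneg h.le (sq_nonneg ‖z‖)]

/-- The linear model `z ↦ z + W z`: it expands along `v`, or it is the map `z ↦ z / 2`. -/
def Lin (W : E →L[ℝ] E) (v : E) (μ : ℝ) : Prop := ‖v‖ = 1 ∧ W v = μ • v ∧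
  (∀ z, ⟪W z, v⟫_ℝ = μ * ⟪z, v⟫_ℝ) ∧
    ((0 < μ ∧ ∀ z, ‖W z‖ ≤ 1 / 3 * ‖z‖) ∨ (μ < 0 ∧ ∀ z, W z = -((1 / 2 : ℝ) • z)))

theorem Lin.le {W : E →L[ℝ] E} {v : E} {μ : ℝ} (h : Lin W v μ) (z : E) : ‖W z‖ ≤ 1 / 2 * ‖z‖ := by
  rcases h.2.2.2 with h | h
  · linarith [h.2 z, norm_nonneg z]
  · rw [h.2, norm_neg, norm_smul, Real.norm_of_nonneg (by norm_num)]

theorem model (ι : OpenPartialHomeomorph E M) (φ : M → ℝ) {c : E} (hc : c ∈ ι.source)
    {D : E → E →L[ℝ] ℝ} {B : E →L[ℝ] E →L[ℝ] ℝ}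
    (h1 : ∀ᶠ z in 𝓝 c, HasFDerivAt (fun z => φ (ι z)) (D z) z) (h2 : HasFDerivAt D B c)
    (h3 : D c = 0) (h4 : Function.Injective B) :
    ∃ (W : E →L[ℝ] E) (v : E) (μ : ℝ), Lin W v μ ∧ ∀ R : ℝ, 0 < R → ∀ U ∈ 𝓝 (ι c),
      ∃ κ : OpenPartialHomeomorph E M, κ 0 = ι c ∧ (∀ z, ‖z‖ ≤ 3 * R → z ∈ κ.source ∧ κ z ∈ U) ∧
        (0 < μ → ∀ t : ℝ, 0 < t → t ≤ R → φ (κ (t • v)) < φ (κ 0)) ∧
        ∃ h ∈ Cts M, h ∈ Sup (κ '' closedBall 0 (3 * R)) ∧ Dec φ h ∧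
          (∀ z, z ≠ 0 → ‖z‖ < 3 * R → φ (h (κ z)) < φ (κ z)) ∧
          ∀ z, ‖z‖ ≤ R → h (κ z) = κ (z + W z) := by
  obtain ⟨W, v, μ, m, m0, v1, v2, v3, w1, w2⟩ :=
    lin B (second_derivative_symmetric_of_eventually_of_real h1 h2) h4
  have hL : Lin W v μ := ⟨v1, v2, v3, w2.imp_left fun h => ⟨h.1, h.2.1⟩⟩
  refine ⟨W, v, μ, hL, fun R R0 U hU => ?_⟩
  obtain ⟨ε, ε0, hε⟩ := Metric.eventually_nhds_iff_ball.1 (h1.and
    ((h2.isLittleO.def (show 0 < m / 4 by linarith)).and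
      (Eventually.and (p := fun z => z ∈ ι.source) (q := fun z => ι z ∈ U)
        (ι.open_source.mem_nhds hc) (ι.continuousAt hc hU))))
  have hb : ∀ u, ‖u‖ < ε → c + u ∈ ball c ε := fun u hu => by simpa using hu
  have est : ∀ u w, ‖u‖ < ε → D (c + u) w ≤ B u w + m / 4 * ‖u‖ * ‖w‖ := fun u w hu => by
    have a1 := (hε _ (hb u hu)).2.1
    rw [h3, sub_zero, add_sub_cancel_left] at a1
    have a2 := (le_abs_self _).trans ((D (c + u) - B u).le_of_opNorm_le a1 w)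
    rw [sub_apply] at a2
    linarith
  obtain ⟨σ, σ0, hσ⟩ : ∃ σ : ℝ, 0 < σ ∧ ∀ z : E, ‖z‖ ≤ 3 * R → 2 * ‖σ • z‖ < ε :=
    ⟨ε / (7 * R), by positivity, fun z hz => by
      rw [norm_smul, Real.norm_of_nonneg (by positivity), div_mul_eq_mul_div, ← mul_div_assoc,
        div_lt_iff₀ (by positivity)]
      nlinarith⟩
  obtain ⟨κ, k1, k2⟩ : ∃ κ : OpenPartialHomeomorph E M, (∀ z, κ z = ι (c + σ • z)) ∧
      ∀ z, c + σ • z ∈ ι.source → z ∈ κ.source :=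
    ⟨((Homeomorph.smulOfNeZero σ σ0.ne').trans (Homeomorph.addLeft c)).transOpenPartialHomeomorph ι,
      fun _ => rfl, fun _ h => h⟩
  have k3 : ∀ z, ‖z‖ ≤ 3 * R → z ∈ κ.source ∧ κ z ∈ U := fun z hz => by
    have := (hε _ (hb (σ • z) (by linarith [hσ z hz, norm_nonneg (σ • z)]))).2.2
    exact ⟨k2 z this.1, k1 z ▸ this.2⟩
  have hs : closedBall 0 (3 * R) ⊆ κ.source := fun z hz => (k3 z (mem_closedBall_zero_iff.1 hz)).1
  have key : ∀ z, z ≠ 0 → ‖z‖ ≤ 3 * R → ∀ s : ℝ, 0 < s → s ≤ 1 →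
      φ (κ (z + s • W z)) < φ (κ z) := fun z z0 hz s s0 s1 => by
    have y0 : 0 < ‖σ • z‖ := norm_pos_iff.2 (smul_ne_zero σ0.ne' z0)
    have y1 := hσ z hz
    rw [k1, k1, smul_add, smul_comm σ s, ← map_smul, ← add_assoc]
    generalize σ • z = y at y0 y1
    have y2 : ∀ τ ∈ Icc (0 : ℝ) 1, ‖y + (τ * s) • W y‖ ≤ 2 * ‖y‖ := fun τ hτ => by
      refine (norm_add_le _ _).trans ?_
      rw [norm_smul, Real.norm_of_nonneg (mul_nonneg hτ.1 s0.le)]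
      nlinarith [mul_le_one₀ hτ.2 s0.le s1, hL.le y, norm_nonneg (W y), mul_nonneg hτ.1 s0.le]
    refine dec_of (g := fun z => φ (ι z)) (g' := D) (fun τ hτ => ?_) fun τ hτ => ?_ <;>
      rw [add_assoc, smul_smul]
    · exact (hε _ (hb _ ((y2 τ hτ).trans_lt y1))).1
    · have hτ' := Ioo_subset_Icc_self hτ
      have a1 := est _ (W y) ((y2 τ hτ').trans_lt y1)
      have a2 := w1 y (τ * s) (mul_nonneg hτ'.1 s0.le) (mul_le_one₀ hτ'.2 s0.le s1)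
      have a3 := mul_le_mul (y2 τ hτ') (hL.le y) (norm_nonneg _) (by positivity)
      rw [map_smul]
      exact mul_neg_of_pos_of_neg s0 (by nlinarith [mul_pos m0 (pow_pos y0 2)])
  refine ⟨κ, by rw [k1, smul_zero, add_zero], k3, fun h t t0 t1 => ?_, ?_⟩
  · have a0 : B v v ≤ -m := w2.elim (fun h => h.2.2) fun h' => absurd h h'.1.not_gt
    have a1 := hσ (t • v) (by rw [norm_smul, v1, Real.norm_of_nonneg t0.le]; linarith)
    rw [k1, k1, smul_zero, add_zero, smul_smul]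
    rw [smul_smul, norm_smul, v1, Real.norm_of_nonneg (by positivity), mul_one] at a1
    have a2 : 0 < σ * t := mul_pos σ0 t0
    generalize σ * t = u at a1 a2
    have a3 : ∀ τ ∈ Icc (0 : ℝ) 1, ‖τ • u • v‖ = τ * u ∧ τ * u < ε := fun τ hτ =>
      ⟨by rw [norm_smul, norm_smul, v1, Real.norm_of_nonneg hτ.1, Real.norm_of_nonneg a2.le, mul_one],
        by nlinarith [hτ.2]⟩
    refine dec_of (g := fun z => φ (ι z)) (g' := D)
      (fun τ hτ => (hε _ (hb _ ((a3 τ hτ).1.trans_lt (a3 τ hτ).2))).1) fun τ hτ => ?_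
    obtain ⟨a4, a5⟩ := a3 τ (Ioo_subset_Icc_self hτ)
    have a6 := est _ v (a4.trans_lt a5)
    rw [a4, v1, smul_smul, map_smul, smul_apply, smul_eq_mul] at a6
    rw [map_smul, smul_smul]
    exact mul_neg_of_pos_of_neg a2 (by nlinarith [mul_pos hτ.1 a2])
  obtain ⟨h, a0, a1, a2⟩ : ∃ h ∈ Cts M, h ∈ Sup (κ '' closedBall 0 (3 * R)) ∧
      ∀ z, ‖z‖ ≤ 3 * R → ∃ s : ℝ, 0 ≤ s ∧ s ≤ 1 ∧ h (κ z) = κ (z + s • W z) ∧
        (‖z‖ ≤ R → s = 1) ∧ (‖z‖ < 3 * R → 0 < s) := by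
    rcases w2 with h | h
    · obtain ⟨h, a0, a1, a2⟩ := push κ 0 (K := 1 / 3) (L := 1) R0 hs W
        (fun z z' => by rw [← map_sub]; exact h.2.1 _)
        (fun z hz => by rw [sub_zero] at hz; linarith [h.2.1 z]) (by norm_num) (by norm_num)
      exact ⟨h, a0, a1, fun z hz => by simpa only [sub_zero] using a2 z (k3 z hz).1⟩
    · obtain ⟨a, a0, a1, a2⟩ := half κ 0 R0 hs
      refine ⟨a, a0, a1, fun z hz => ?_⟩
      simp only [sub_zero] at a2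
      obtain ⟨s, s0, s1, s2, s3, s4⟩ := a2 z hz
      refine ⟨2 * s, by linarith, by linarith, ?_, fun h => by linarith [s3 h],
        fun h => by linarith [s4 h]⟩
      rw [s2, h.2]
      congr 1
      module
  refine ⟨h, a0, a1, fun y => ?_, fun z z0 hz => ?_, fun z hz => ?_⟩
  · by_cases hy : y ∈ κ '' closedBall 0 (3 * R)
    · obtain ⟨z, hz, rfl⟩ := hy
      obtain ⟨s, s0, s1, s2, -⟩ := a2 z (mem_closedBall_zero_iff.1 hz)
      rw [s2]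
      by_cases h0 : z = 0 ∨ s = 0
      · exact Or.inl (by rcases h0 with h | h <;> simp [h])
      · exact Or.inr (key z (not_or.1 h0).1 (mem_closedBall_zero_iff.1 hz) s
          (s0.lt_of_ne' (not_or.1 h0).2) s1)
    · exact Or.inl (a1 y hy)
  · obtain ⟨s, -, s1, s2, -, s3⟩ := a2 z hz.le
    rw [s2]
    exact key z z0 hz.le s (s3 hz) s1
  · obtain ⟨s, -, -, s2, s3, -⟩ := a2 z (by linarith)
    rw [s2, s3 hz, one_smul]

theorem dyn (M E : Type*) [TopologicalSpace M] [T2Space M] [CompactSpace M]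
    [NormedAddCommGroup E] [InnerProductSpace ℝ E] [FiniteDimensional ℝ E] [Nontrivial E]
    [ChartedSpace E M] [IsManifold 𝓘(ℝ, E) ∞ M] :
    ∃ (φ : M → ℝ) (F : Set M) (W : F → E →L[ℝ] E) (v : F → E) (μ : F → ℝ), Continuous φ ∧
      F.Finite ∧ (∀ i, Lin (W i) (v i) (μ i)) ∧ ∀ R : ℝ, 0 < R →
      ∃ κ : F → OpenPartialHomeomorph E M, (∀ i z, ‖z‖ ≤ R → z ∈ (κ i).source) ∧
        (∀ i j z w, ‖z‖ ≤ R → ‖w‖ ≤ R → κ i z = κ j w → i = j) ∧
        (∀ i, 0 < μ i → ∀ t : ℝ, 0 < t → t ≤ R → φ (κ i (t • v i)) < φ (κ i 0)) ∧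
        ∃ x ∈ Subgroup.closure (Gen M E), (∀ y, (∀ i, y ≠ κ i 0) → φ (x y) < φ y) ∧
          ∀ i z, ‖z‖ ≤ R → x (κ i z) = κ i (z + W i z) := by
  obtain ⟨φ, φ0, F, hF, h⟩ := morse (E := E) M
  choose ι c D B c1 c2 h1 h2 h3 h4 using h
  choose W v μ hL hm using fun i : F => model (ι i) φ (c1 i) (h1 i) (h2 i) (h3 i i.2).1 (h3 i i.2).2
  refine ⟨φ, F, W, v, μ, φ0, hF, hL, fun R R0 => ?_⟩
  obtain ⟨U, U1, U2⟩ := hF.t2_separation
  have := hF.to_subtype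
  choose κ k0 k1 k2 h a0 a1 a2 a3 a4 using fun i : F => hm i R R0 (U i)
    ((U1 i).2.mem_nhds (by rw [c2]; exact (U1 i).1))
  have hs : ∀ i r, r ≤ 3 * R → closedBall 0 r ⊆ (κ i).source :=
    fun i r hr z hz => (k1 i z ((mem_closedBall_zero_iff.1 hz).trans hr)).1
  have hD : Dj fun i => κ i '' closedBall 0 (3 * R) := by
    rintro i j _ ⟨z, hz, rfl⟩ ⟨w, hw, e⟩
    exact Subtype.ext (U2.elim_set i.2 j.2 _ (k1 i z (mem_closedBall_zero_iff.1 hz)).2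
      (e ▸ (k1 j w (mem_closedBall_zero_iff.1 hw)).2))
  obtain ⟨g, g0, g1, g2⟩ := fglue hD a1 (fun i => Subgroup.subset_closure
    (show h i ∈ Gen M E from ⟨a0 i, κ i, 0, _, hs i _ le_rfl, a1 i⟩)) (toFinite _)
  obtain ⟨y, ⟨y0, y1⟩, y2, y3⟩ := cover
    (Subgroup.closure (Gen M E) ⊓ Sup (⋃ i, κ i '' closedBall 0 R)ᶜ) φ
    (isOpen_iUnion fun i => (κ i).isOpen_image_of_subset_source isOpen_ball
      (ball_subset_closedBall.trans (hs i (2 * R) (by linarith)))).isClosed_compl.isCompact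
    fun q hq => by
      obtain ⟨O, o1, a, b1, ⟨K, -, b2, b3⟩, b4⟩ := regpush (ι q) φ (c1 q) (h1 q) (h2 q).continuousAt
        (h4 q fun hq' => hq (mem_iUnion.2 ⟨⟨q, hq'⟩, 0, mem_ball_self (by linarith),
          (k0 _).trans (c2 q)⟩))
        ((isClosed_iUnion_of_finite fun i => ((isCompact_closedBall 0 R).image_of_continuousOn
          ((κ i).continuousOn.mono (hs i R (by linarith)))).isClosed).isOpen_compl.mem_nhds
          (by rw [c2]; exact fun h => hq (iUnion_mono (fun i => image_mono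
            (closedBall_subset_ball (by linarith))) h)))
      exact ⟨O, c2 q ▸ o1, a, ⟨Subgroup.subset_closure b1, sup_mono b3 b2⟩, b4⟩
  have gd : Dec φ g := fun z => by
    by_cases hz : ∃ i, z ∈ κ i '' closedBall 0 (3 * R)
    · obtain ⟨i, hi⟩ := hz
      rw [g1 i z hi]
      exact a2 i z
    · exact Or.inl (g2 z (not_exists.1 hz))
  have hb : ∀ z : E, ‖z‖ ≤ R → z ∈ closedBall 0 (3 * R) :=
    fun z hz => mem_closedBall_zero_iff.2 (by linarith)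
  refine ⟨κ, fun i z hz => hs i _ le_rfl (hb z hz), fun i j z w hz hw e =>
    hD i j _ ⟨z, hb z hz, rfl⟩ ⟨w, hb w hw, e.symm⟩, k2, g * y, mul_mem g0 y0,
    fun q hq => (gd.mul y2).2 q ?_, fun i z hz => ?_⟩
  · by_cases h : q ∈ ⋃ i, κ i '' ball 0 (2 * R)
    · obtain ⟨i, z, hz, rfl⟩ := mem_iUnion.1 h
      have := mem_ball_zero_iff.1 hz
      rw [g1 i _ ⟨z, mem_closedBall_zero_iff.2 (by linarith), rfl⟩]
      exact Or.inl (a3 i z (fun e => hq i (by rw [e])) (by linarith))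
    · exact Or.inr (y3 q h)
  · rw [Perm.mul_apply, y1 _ (not_not.2 (mem_iUnion.2 ⟨i, z, mem_closedBall_zero_iff.2 hz, rfl⟩)),
      g1 i _ ⟨z, hb z hz, rfl⟩, a4 i z hz]

end Pool.Agent.Lib.MP_a2d0bb_al.CM
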