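import Pool.Agent.Lib.MP_a2d0bb_al.CM.Frag

/-!
Existence of a Morse function on a closed smooth manifold.
-/

set_option autoImplicit false
set_option linter.unusedSectionVars false

open Set Metric Filter MeasureTheory
open scoped Topology Manifold ContDiff

namespace Pool.Agent.Lib.MP_a2d0bb_al.CM

variable {E : Type*} [NormedAddCommGroup E] [NormedSpace ℝ E] [FiniteDimensional ℝ E]

theorem sard {J : Type*} [Fintype J] (W : J → Set E) (hW : ∀ j, IsOpen (W j))
    (D : J → J → E → E →L[ℝ] E) (hD : ∀ i j, ∀ z ∈ W j, DifferentiableAt ℝ (D i j) z)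
    (hj : ∀ j, ∀ z ∈ W j, D j j z = ContinuousLinearMap.id ℝ E) :
    ∃ a : J → E →L[ℝ] ℝ, ∀ j, ∀ z ∈ W j, ∑ i, (a i).comp (D i j z) = 0 →
      Function.Injective (fderiv ℝ (fun z => ∑ i, (a i).comp (D i j z)) z) := by
  classical
  obtain ⟨T⟩ : Nonempty ((E →L[ℝ] ℝ) ≃L[ℝ] E) := ⟨ContinuousLinearEquiv.ofFinrankEq
    (LinearMap.toContinuousLinearMap.finrank_eq.symm.trans Subspace.dual_finrank_eq)⟩
  borelize (J → E →L[ℝ] ℝ)
  obtain ⟨s, s1, s2⟩ : ∃ s : J → (E →L[ℝ] ℝ) →L[ℝ] J → E →L[ℝ] ℝ, (∀ j y, s j y j = y) ∧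
      ∀ j i y, i ≠ j → s j y i = 0 := ⟨fun j => ContinuousLinearMap.single ℝ (fun _ => _) j,
    fun j y => by simp, fun j i y h => by simp [h]⟩
  obtain ⟨P, P1⟩ : ∃ P : J → (J → E →L[ℝ] ℝ) → J → E →L[ℝ] ℝ, ∀ j, P j = fun b =>
    b - s j (∑ i, (b i).comp (D i j (T (b j)))) := ⟨_, fun _ => rfl⟩
  have hP : ∀ j b, T (b j) ∈ W j → DifferentiableAt ℝ (P j) b := fun j b hb => by
    rw [P1]
    refine differentiableAt_id.sub ((s j).differentiableAt.comp b
      (DifferentiableAt.fun_sum fun i _ => DifferentiableAt.clm_comp (by fun_prop) ?_))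
    exact (hD i j _ hb).comp b (by fun_prop)
  have h0 : (Measure.addHaar : Measure (J → E →L[ℝ] ℝ))
      (⋃ j, P j '' {b | T (b j) ∈ W j ∧ (fderiv ℝ (P j) b).det = 0}) = 0 :=
    measure_iUnion_null fun j => addHaar_image_eq_zero_of_det_fderivWithin_eq_zero _
      (fun b hb => (hP j b hb.1).hasFDerivAt.hasFDerivWithinAt) fun b hb => hb.2
  obtain ⟨a, ha⟩ := (Measure.dense_of_ae (measure_eq_zero_iff_ae_notMem.1 h0)).nonempty
  refine ⟨a, fun j z hz hs => ?_⟩
  have e0 : ∀ y, T ((a + s j (T.symm y - a j)) j) = y := fun y => by simp [s1]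
  have e1 : ∀ y ∈ W j, P j (a + s j (T.symm y - a j)) = a - s j (∑ i, (a i).comp (D i j y)) :=
    fun y hy => by
      have : ∑ i, (s j (T.symm y - a j) i).comp (D i j y) = T.symm y - a j := by
        rw [Finset.sum_eq_single j (fun i _ h => by simp [s2 j i _ h]) (by simp), hj j y hy, s1,
          ContinuousLinearMap.comp_id]
      simp only [P1, e0]
      simp only [Pi.add_apply, ContinuousLinearMap.add_comp, Finset.sum_add_distrib, this, map_add]
      abel
  have hb : T ((a + s j (T.symm z - a j)) j) ∈ W j := by rwa [e0]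
  have hd : (fderiv ℝ (P j) (a + s j (T.symm z - a j))).det ≠ 0 := fun h =>
    ha (mem_iUnion.2 ⟨j, _, ⟨hb, h⟩, by rw [e1 z hz, hs, map_zero, sub_zero]⟩)
  have hS : DifferentiableAt ℝ (fun z => ∑ i, (a i).comp (D i j z)) z :=
    DifferentiableAt.fun_sum fun i _ => (differentiableAt_const _).clm_comp (hD i j z hz)
  have d1 : HasFDerivAt (fun y => P j (a + s j (T.symm y - a j))) _ z :=
    (hP j _ hb).hasFDerivAt.comp z (((s j).hasFDerivAt.comp z
      (T.symm.hasFDerivAt.sub_const (a j))).const_add a)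
  have d2 : HasFDerivAt (fun y => P j (a + s j (T.symm y - a j))) _ z :=
    (((s j).hasFDerivAt.comp z hS.hasFDerivAt).const_sub a).congr_of_eventuallyEq
      (by filter_upwards [(hW j).mem_nhds hz] with y hy using e1 y hy)
  refine (injective_iff_map_eq_zero _).2 fun u hu => ?_
  have h : s j (T.symm u) ∈
      LinearMap.ker (fderiv ℝ (P j) (a + s j (T.symm z - a j))).toLinearMap := by
    have := DFunLike.congr_fun (d1.unique d2) u
    simpa [hu] using this
  rw [not_not.1 (mt LinearMap.det_eq_zero_iff_ker_ne_bot.2 hd)] at h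
  simpa [s1] using congrFun (Submodule.mem_bot ℝ |>.1 h) j

theorem morse (M : Type*) [TopologicalSpace M] [T2Space M] [CompactSpace M] [ChartedSpace E M]
    [IsManifold 𝓘(ℝ, E) ∞ M] : ∃ φ : M → ℝ, Continuous φ ∧ ∃ F : Set M, F.Finite ∧ ∀ q,
      ∃ (ι : OpenPartialHomeomorph E M) (c : E) (D : E → E →L[ℝ] ℝ) (B : E →L[ℝ] E →L[ℝ] ℝ),
        c ∈ ι.source ∧ ι c = q ∧ (∀ᶠ z in 𝓝 c, HasFDerivAt (fun z => φ (ι z)) (D z) z) ∧
        HasFDerivAt D B c ∧ (q ∈ F → D c = 0 ∧ Function.Injective B) ∧ (q ∉ F → D c ≠ 0) := by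
  obtain ⟨J, fs, -⟩ := SmoothBumpCovering.exists_isSubordinate 𝓘(ℝ, E) (M := M) isClosed_univ
    (U := fun _ => univ) fun _ _ => univ_mem
  let := fs.fintype
  let e : J → M → E := fun i x => fs i x • chartAt E (fs.c i) x
  have he : ∀ i, ContMDiff 𝓘(ℝ, E) 𝓘(ℝ, E) ∞ (e i) :=
    fun i => (fs i).contMDiff_smul contMDiffOn_chart
  let ι : J → OpenPartialHomeomorph E M := fun j => (chartAt E (fs.c j)).symm
  have hc : ∀ i j, ∀ z ∈ (ι j).source, ContDiffAt ℝ ∞ (fun z => e i (ι j z)) z := fun i j z hz =>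
    (contMDiffOn_iff_contDiffOn.1 ((he i).comp_contMDiffOn contMDiffOn_chart_symm)).contDiffAt
      ((ι j).open_source.mem_nhds hz)
  have hd : ∀ i j, ∀ z ∈ (ι j).source, DifferentiableAt ℝ (fderiv ℝ fun z => e i (ι j z)) z :=
    fun i j z hz => ((hc i j z hz).fderiv_right (m := 1) (by norm_cast)).differentiableAt one_ne_zero
  let V : J → Set M := fun j => {x | fs j =ᶠ[𝓝 x] 1}
  have hV : ∀ j, IsOpen (V j) := fun j => isOpen_setOfPred_eventually_nhds
  have hT : ∀ j, ∀ x ∈ V j, x ∈ (ι j).target :=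
    fun j x hx => fs.mem_chartAt_source_of_eq_one hx.self_of_nhds
  obtain ⟨a, ha⟩ := sard (fun j => (ι j).source ∩ ι j ⁻¹' V j)
    (fun j => (ι j).isOpen_inter_preimage (hV j)) (fun i j => fderiv ℝ fun z => e i (ι j z))
    (fun i j z hz => hd i j z hz.1) fun j z hz => by
      refine ((hasFDerivAt_id z).congr_of_eventuallyEq ?_).fderiv
      filter_upwards [((ι j).isOpen_inter_preimage (hV j)).mem_nhds hz] with y hy
      simp only [e, hy.2.self_of_nhds, Pi.one_apply, one_smul]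
      exact (ι j).left_inv hy.1
  let S : J → E → E →L[ℝ] ℝ := fun j z => ∑ i, (a i).comp (fderiv ℝ (fun z => e i (ι j z)) z)
  have hS : ∀ j, ∀ z ∈ (ι j).source, HasFDerivAt (S j) (fderiv ℝ (S j) z) z := fun j z hz =>
    (DifferentiableAt.fun_sum fun i _ =>
      (differentiableAt_const _).clm_comp (hd i j z hz)).hasFDerivAt
  have key : ∀ q j, q ∈ V j → (ι j).symm q ∈ (ι j).source ∩ ι j ⁻¹' V j := fun q j h =>
    ⟨(ι j).map_target (hT j q h), by rwa [mem_preimage, (ι j).right_inv (hT j q h)]⟩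
  refine ⟨fun x => ∑ i, a i (e i x), continuous_finsetSum _ fun i _ =>
    (a i).continuous.comp (he i).continuous, {q | ∀ j, q ∈ V j → S j ((ι j).symm q) = 0}, ?_,
    fun q => ?_⟩
  · refine (univ_inter _).subst <| isCompact_univ.induction_on
      (p := fun t => (t ∩ {q | ∀ j, q ∈ V j → S j ((ι j).symm q) = 0}).Finite) (by simp)
      (fun _ _ h h' => h'.subset (inter_subset_inter_left _ h))
      (fun _ _ h h' => union_inter_distrib_right _ _ _ ▸ h.union h') fun q _ => ?_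
    obtain ⟨j, hj⟩ : ∃ j, q ∈ V j := fs.eventuallyEq_one' q trivial
    have h : ∀ᶠ z in 𝓝[≠] ((ι j).symm q), S j z ≠ 0 := by
      by_cases h : S j ((ι j).symm q) = 0
      · obtain ⟨K, -, hK⟩ := LinearMap.exists_antilipschitzWith
          (fderiv ℝ (S j) ((ι j).symm q)).toLinearMap (LinearMap.ker_eq_bot.2 (ha j _ (key q j hj) h))
        exact (hS j _ (key q j hj).1).eventually_ne ⟨K, hK⟩
      · exact mem_nhdsWithin_of_mem_nhds ((hS j _ (key q j hj).1).continuousAt.eventually_ne h)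
    refine ⟨_, mem_nhdsWithin_of_mem_nhds (inter_mem ((hV j).mem_nhds hj)
      ((ι j).continuousAt_symm (hT j q hj) (eventually_nhdsWithin_iff.1 h))),
      (finite_singleton q).subset fun y hy => by_contra fun h' => hy.1.2 (fun e => h' ?_)
        (hy.2 j hy.1.1)⟩
    exact (ι j).symm.injOn (hT j y hy.1.1) (hT j q hj) e
  · obtain ⟨j, hj, h⟩ : ∃ j, q ∈ V j ∧ ((¬ ∀ j, q ∈ V j → S j ((ι j).symm q) = 0) →
        S j ((ι j).symm q) ≠ 0) := by
      by_cases h : ∀ j, q ∈ V j → S j ((ι j).symm q) = 0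
      · exact (fs.eventuallyEq_one' q trivial).imp fun j hj => ⟨hj, fun h' => absurd h h'⟩
      · push Not at h
        exact h.imp fun j hj => ⟨hj.1, fun _ => hj.2⟩
    refine ⟨ι j, _, S j, _, (key q j hj).1, (ι j).right_inv (hT j q hj), ?_, hS j _ (key q j hj).1,
      fun h => ⟨h j hj, ha j _ (key q j hj) (h j hj)⟩, h⟩
    filter_upwards [(ι j).open_source.mem_nhds (key q j hj).1] with z hz
    exact HasFDerivAt.fun_sum fun i _ => (a i).hasFDerivAt.comp z
      ((hc i j z hz).differentiableAt (by simp)).hasFDerivAt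

end Pool.Agent.Lib.MP_a2d0bb_al.CM
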