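import Pool.Agent.Lib.MP_a2d0bb_al.CM.Model

/-!
The local structure at the sinks and the spreading argument.
-/

set_option autoImplicit false
set_option linter.unusedSectionVars false

open Equiv Set Metric Filter
open scoped Topology InnerProductSpace

namespace Pool.Agent.Lib.MP_a2d0bb_al.CM

theorem extract {X : Type*} (G 𝒜 : Subgroup (Perm X)) (f x l : Perm X) (V : Set X)
    (h1 : ∀ b : ℕ → Perm X, (∀ i, b i ∈ 𝒜) → ∃ g ∈ G, (∀ z ∉ V, g z = x z) ∧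
      ∀ i, b i * l * (b i)⁻¹ ∈ Subgroup.closure ({f, g} : Set (Perm X)))
    (h2 : ∀ H : Subgroup (Perm X), f ∈ H → (∀ b ∈ 𝒜, b * l * b⁻¹ ∈ H) →
      (∀ a ∈ Sup Vᶜ, x * a * x⁻¹ ∈ H → a ∈ H) → G ≤ H)
    (S : Set (Perm X)) (hS : S.Countable) (hG : S ⊆ G) :
    ∃ g ∈ G, S ⊆ Subgroup.closure ({f, g} : Set (Perm X)) := by
  let H : Subgroup (Perm X) :=
    { carrier := {a | ∃ T : Set (Perm X), T.Countable ∧ T ⊆ 𝒜 ∧ ∀ g : Perm X,
        (∀ z ∉ V, g z = x z) → ∀ Γ : Subgroup (Perm X), f ∈ Γ → g ∈ Γ →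
          (∀ b ∈ T, b * l * b⁻¹ ∈ Γ) → a ∈ Γ}
      one_mem' := ⟨∅, countable_empty, empty_subset _, fun _ _ _ _ _ _ => one_mem _⟩
      mul_mem' := fun ⟨_, a1, a2, a3⟩ ⟨_, b1, b2, b3⟩ => ⟨_, a1.union b1, union_subset a2 b2,
        fun g e Γ e1 e2 e3 => mul_mem (a3 g e Γ e1 e2 fun b hb => e3 b (Or.inl hb))
          (b3 g e Γ e1 e2 fun b hb => e3 b (Or.inr hb))⟩
      inv_mem' := fun ⟨T, a1, a2, a3⟩ => ⟨T, a1, a2, fun g e Γ e1 e2 e3 =>
        inv_mem (a3 g e Γ e1 e2 e3)⟩ }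
  have hH : G ≤ H := h2 H ⟨∅, countable_empty, empty_subset _, fun _ _ _ h _ _ => h⟩
    (fun b hb => ⟨{b}, countable_singleton b, singleton_subset_iff.2 hb,
      fun _ _ _ _ _ h => h b rfl⟩)
    fun a ha ⟨T, a1, a2, a3⟩ => ⟨T, a1, a2, fun g e Γ e1 e2 e3 => by
      have := a3 g e Γ e1 e2 e3
      rw [← sup_cong ha e] at this
      simpa [mul_assoc] using mul_mem (mul_mem (inv_mem e2) this) e2⟩
  choose T T1 T2 T3 using fun s : S => hH (hG s.2)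
  have := hS.to_subtype
  obtain ⟨b, hb⟩ := ((countable_iUnion T1).insert 1).exists_eq_range (insert_nonempty _ _)
  obtain ⟨g, g0, g1, g2⟩ := h1 b fun i => by
    rcases hb.ge (mem_range_self i) with h | h
    · rw [h]; exact one_mem _
    · obtain ⟨s, hs⟩ := mem_iUnion.1 h
      exact T2 s hs
  refine ⟨g, g0, fun s hs => T3 ⟨s, hs⟩ g g1 _ (Subgroup.subset_closure (by simp))
    (Subgroup.subset_closure (by simp)) fun c hc => ?_⟩
  obtain ⟨i, rfl⟩ := hb.le (Or.inr (mem_iUnion.2 ⟨_, hc⟩))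
  exact g2 i

variable {M : Type*} [TopologicalSpace M] [T2Space M] [CompactSpace M]
  {E : Type*} [NormedAddCommGroup E] [InnerProductSpace ℝ E] [FiniteDimensional ℝ E]

theorem Loc.back {H : Subgroup (Perm M)} {U U' V : Set M} (h : Loc H U) {x : Perm M}
    (hx : x ∈ Cts M) (hH : ∀ a ∈ Sup Vᶜ, x * a * x⁻¹ ∈ H → a ∈ H)
    (hU : ∀ z ∈ U', z ∉ V ∧ x z ∈ U) : Loc H U' := fun a a0 K k1 k2 a1 =>
  hH a (sup_mono a1 fun z hz => (hU z (k2 hz)).1) (h _ (mul_mem (mul_mem hx a0) (inv_mem hx)) _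
    (k1.image hx) (by rintro _ ⟨z, hz, rfl⟩; exact (hU z (k2 hz)).2)
    (sup_conj a1 fun z hz => ⟨z, hz, rfl⟩))

theorem spread {H : Subgroup (Perm M)} {V : Set M} {φ : M → ℝ} (hφ : Continuous φ) {x f : Perm M}
    (hx : x ∈ Cts M) (hf : f ∈ Cts M) (hf' : f ∈ H)
    (hH : ∀ a ∈ Sup Vᶜ, x * a * x⁻¹ ∈ H → a ∈ H)
    (h : ∀ z, (∃ U ∈ 𝓝 z, Loc H U) ∨ φ (f z) < φ z ∨ (Vᶜ ∈ 𝓝 z ∧ φ (x z) < φ z)) (z : M) :
    ∃ U ∈ 𝓝 z, Loc H U := by
  by_contra hz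
  have hO : IsOpen {z | ∃ U ∈ 𝓝 z, Loc H U} := isOpen_iff_mem_nhds.2 fun z ⟨U, h1, h2⟩ =>
    (eventually_mem_nhds_iff.2 h1).mono fun y hy => ⟨U, hy, h2⟩
  obtain ⟨y, y1, y2⟩ := hO.isClosed_compl.isCompact.exists_isMinOn ⟨z, hz⟩ hφ.continuousOn
  refine y1 ((h y).elim id fun h => h.elim (fun h => ?_) fun h => ?_)
  · obtain ⟨U, h1, h2⟩ : ∃ U ∈ 𝓝 (f y), Loc H U := by_contra fun h' => h.not_ge (y2 h')
    exact ⟨_, Continuous.continuousAt hf h1, h2.conj hf' hf fun _ h => h⟩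
  · obtain ⟨U, h1, h2⟩ : ∃ U ∈ 𝓝 (x y), Loc H U := by_contra fun h' => h.2.not_ge (y2 h')
    exact ⟨_, inter_mem h.1 (Continuous.continuousAt hx h1), h2.back hx hH fun _ h => h⟩

theorem nb {v : E} (hv : ‖v‖ = 1) {a : ℝ} (ha : 0 ≤ a) (z w : E) (h : z = w + a • v) :
    ‖z‖ ≤ ‖w‖ + a ∧ ‖w‖ ≤ ‖z‖ + a ∧ a ≤ ‖z‖ + ‖w‖ := by
  have e : ‖a • v‖ = a := by rw [norm_smul, hv, mul_one, Real.norm_of_nonneg ha]
  have h1 := norm_add_le w (a • v)
  have h2 := norm_sub_le z (a • v)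
  have h3 := norm_sub_le z w
  rw [← h] at h1
  rw [show z - a • v = w by rw [h, add_sub_cancel_right]] at h2
  rw [show z - w = a • v by rw [h, add_sub_cancel_left]] at h3
  exact ⟨by linarith, by linarith, by linarith⟩

theorem nh (z : E) : ‖(1 / 2 : ℝ) • z‖ = ‖z‖ / 2 := by
  rw [norm_smul, Real.norm_of_nonneg (by norm_num)]; ring

variable {I : Type*} {κ : I → OpenPartialHomeomorph E M} {v : I → E} {x f : Perm M} {η : ℝ}
  (hs : ∀ i z, ‖z‖ ≤ 16 → z ∈ (κ i).source)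
  (inj : ∀ i j z w, ‖z‖ ≤ 16 → ‖w‖ ≤ 16 → κ i z = κ j w → i = j ∧ z = w)
  (hv : ∀ i, ‖v i‖ = 1) (h0 : 0 < η) (h1 : 40000 * η ≤ 1)
  (hx : ∀ i z, ‖z‖ ≤ 16 → x (κ i z) = κ i ((1 / 2 : ℝ) • z))
  (hf : ∀ i z, ‖z‖ ≤ 1 / 2 → f (κ i z) = κ i (z + (192 * η) • v i))

include inj in
theorem nm {i : I} {z : E} {r : ℝ} (hz : ‖z‖ ≤ 16) (hr : r ≤ ‖z‖) : κ i z ∉ ⋃ j, κ j '' ball 0 r := by
  intro h
  obtain ⟨j, w, hw, e⟩ := mem_iUnion.1 h
  have := mem_ball_zero_iff.1 hw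
  rw [(inj j i w z (by linarith) hz e).2] at this
  linarith

include inj in
theorem dj {S : I → Set E} (h : ∀ i, ∀ z ∈ S i, ‖z‖ ≤ 16) : Dj fun i => κ i '' S i := by
  rintro i j _ ⟨z, hz, rfl⟩ ⟨w, hw, e⟩
  exact (inj i j z w (h i z hz) (h j w hw) e.symm).1

include inj hv h0 h1 hx hf in
theorem sinkA : ∀ y ∈ ⋃ i, κ i '' ball 0 (96 * η), f y ∉ ⋃ i, κ i '' ball 0 (96 * η) ∧
    f (f y) ∉ ⋃ i, κ i '' ball 0 (96 * η) ∧ x (f (f y)) = f (x y) ∧ x (f y) = f (x (f⁻¹ y)) := by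
  intro y hy
  obtain ⟨i, z, hz, rfl⟩ := mem_iUnion.1 hy
  have a0 := mem_ball_zero_iff.1 hz
  have a1 := nb (hv i) (a := 192 * η) (by linarith) _ z rfl
  have a2 := nb (hv i) (a := 384 * η) (by linarith) (z + (192 * η) • v i + (192 * η) • v i) z
    (by module)
  have a3 := nb (hv i) (a := 192 * η) (by linarith) z (z - (192 * η) • v i) (by module)
  have e : f⁻¹ (κ i z) = κ i (z - (192 * η) • v i) := by
    rw [Perm.inv_eq_iff_eq, hf i _ (by linarith [a3.2.1]), sub_add_cancel]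
  rw [e, hf i z (by linarith), hf i _ (by linarith [a1.1]), hx i _ (by linarith [a2.1]),
    hx i z (by linarith), hx i _ (by linarith [a1.1]), hx i _ (by linarith [a3.2.1]),
    hf i _ (by rw [nh]; linarith), hf i _ (by rw [nh]; linarith [a3.2.1])]
  exact ⟨nm inj (by linarith [a1.1]) (by linarith [a1.2.2]),
    nm inj (by linarith [a2.1]) (by linarith [a2.2.2]), congrArg _ (by module), congrArg _ (by module)⟩

include inj hv h0 h1 hx in
theorem sinkB (i : I) : (∀ y ∈ κ i '' ball 0 (96 * η), x y ∈ κ i '' ball 0 (96 * η)) ∧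
    ∀ y ∈ κ i '' ball ((72 * η) • v i) (24 * η),
      y ∈ κ i '' ball 0 (96 * η) ∧ x⁻¹ y ∉ ⋃ j, κ j '' ball 0 (96 * η) := by
  constructor
  · rintro _ ⟨z, hz, rfl⟩
    have := mem_ball_zero_iff.1 hz
    exact ⟨_, mem_ball_zero_iff.2 (by rw [nh]; linarith), (hx i z (by linarith)).symm⟩
  · rintro _ ⟨z, hz, rfl⟩
    have a0 := mem_ball_iff_norm.1 hz
    have a1 := nb (hv i) (a := 72 * η) (by linarith) z _ (sub_add_cancel _ _).symm
    have a2 : ‖(2 : ℝ) • z‖ = 2 * ‖z‖ := by rw [norm_smul, Real.norm_two]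
    have e : x⁻¹ (κ i z) = κ i ((2 : ℝ) • z) := by
      rw [Perm.inv_eq_iff_eq, hx i _ (by linarith [a1.1]), smul_smul]
      norm_num
    rw [e]
    exact ⟨⟨z, mem_ball_zero_iff.2 (by linarith [a1.1]), rfl⟩,
      nm inj (by linarith [a1.1]) (by linarith [a1.2.2])⟩

include hs inj hv h0 h1 in
theorem sinkC [Finite I] (hB : Dj fun i => κ i '' ball ((72 * η) • v i) (24 * η)) :
    ∃ l₁ ∈ Ad hB, ∃ l₂ ∈ Ad hB, l₁ * l₂ * l₁⁻¹ * l₂⁻¹ ∈ Cts M ∧ ∀ i z,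
      ‖z - (74 * η) • v i‖ ≤ 3 * η → (l₁ * l₂ * l₁⁻¹ * l₂⁻¹) (κ i z) =
        κ i ((74 * η) • v i + (1 / 2 : ℝ) • (z - (74 * η) • v i)) := by
  have b1 : ∀ i z, ‖z - (74 * η) • v i‖ ≤ 21 * η →
      z ∈ ball ((72 * η) • v i) (24 * η) ∧ ‖z‖ ≤ 16 := fun i z hz => by
    have a1 := nb (hv i) (a := 74 * η) (by linarith) z _ (sub_add_cancel _ _).symm
    have a2 := nb (hv i) (a := 2 * η) (by linarith) (z - (72 * η) • v i) (z - (74 * η) • v i)
      (by module)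
    exact ⟨mem_ball_iff_norm.2 (by linarith [a2.1]), by linarith [a1.1]⟩
  have b2 : ∀ i r, r ≤ 21 * η → closedBall ((74 * η) • v i) r ⊆ (κ i).source :=
    fun i r hr z hz => hs i z (b1 i z ((mem_closedBall_iff_norm.1 hz).trans hr)).2
  have b3 : ∀ i r, r ≤ 21 * η → ∀ a ∈ Sup (κ i '' closedBall ((74 * η) • v i) r),
      a ∈ Sup (κ i '' ball ((72 * η) • v i) (24 * η)) := fun i r hr a ha => sup_mono ha
    fun y hy => image_mono (fun z hz => (b1 i z ((mem_closedBall_iff_norm.1 hz).trans hr)).1) hy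
  choose a a0 a1 a2 using fun i => half (κ i) ((74 * η) • v i) (r := 3 * η) (by linarith)
    (b2 i _ (by linarith))
  choose m m0 m1 m2 using fun i => push (κ i) ((74 * η) • v i) (r := 7 * η) (K := 0) (L := 13 / 7)
    (by linarith) (b2 i _ (by linarith)) (fun _ => -((13 * η) • v i)) (by simp)
    (fun _ _ => by rw [norm_neg, norm_smul, hv, Real.norm_of_nonneg (by linarith)]; linarith)
    le_rfl (by norm_num)
  obtain ⟨l, ⟨l0, l1⟩, l2, -⟩ := fglue (G := Cts M ⊓ Ad hB) hB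
    (fun i => b3 i _ (by linarith) _ (a1 i))
    (fun i => ⟨a0 i, ad_one hB i (a0 i) (b3 i _ (by linarith) _ (a1 i))⟩) (toFinite _)
  obtain ⟨n, ⟨n0, n1⟩, n2, -⟩ := fglue (G := Cts M ⊓ Ad hB) hB
    (fun i => b3 i _ (by linarith) _ (m1 i))
    (fun i => ⟨m0 i, ad_one hB i (m0 i) (b3 i _ (by linarith) _ (m1 i))⟩) (toFinite _)
  refine ⟨l, l1, n⁻¹, inv_mem n1, mul_mem (mul_mem (mul_mem l0 (inv_mem n0)) (inv_mem l0))
    (inv_mem (inv_mem n0)), fun i z hz => ?_⟩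
  have c1 := b1 i z (by linarith)
  have c2 := nb (hv i) (a := 13 * η) (by linarith) (z - (74 * η) • v i)
    (z + -((13 * η) • v i) - (74 * η) • v i) (by module)
  have c3 := b1 i (z + -((13 * η) • v i)) (by linarith [c2.2.1])
  obtain ⟨s, -, -, s1, s2, -⟩ := m2 i z (hs i z c1.2)
  rw [s2 (by linarith), one_smul, ← n2 i _ ⟨z, c1.1, rfl⟩] at s1
  have e : l⁻¹ (n (κ i z)) = n (κ i z) := by
    rw [Perm.inv_eq_iff_eq, s1, l2 i _ ⟨_, c3.1, rfl⟩, a1]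
    rintro ⟨w, hw, e⟩
    have := mem_closedBall_iff_norm.1 hw
    rw [(inj i i w _ (b1 i w (by linarith)).2 c3.2 e).2] at this
    linarith [c2.2.2]
  obtain ⟨t, -, -, t1, t2, -⟩ := a2 i z (by linarith)
  simp only [Perm.mul_apply, inv_inv]
  rw [e, ia, l2 i _ ⟨z, c1.1, rfl⟩, t1, t2 hz]
  congr 1
  module

include hs inj hv h0 h1 hx hf in
theorem sinkD [TopologicalSpace.MetrizableSpace M]
    (hB : Dj fun i => κ i '' ball ((72 * η) • v i) (24 * η)) {l : Perm M} (l0 : l ∈ Cts M)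
    (l1 : ∀ i z, ‖z - (74 * η) • v i‖ ≤ 3 * η →
      l (κ i z) = κ i ((74 * η) • v i + (1 / 2 : ℝ) • (z - (74 * η) • v i)))
    (x0 : x ∈ Cts M) (f0 : f ∈ Cts M) {H : Subgroup (Perm M)} (fH : f ∈ H)
    (lH : ∀ b ∈ Ad hB, b * l * b⁻¹ ∈ H)
    (hH : ∀ a ∈ Sup (⋃ i, κ i '' ball 0 (96 * η))ᶜ, x * a * x⁻¹ ∈ H → a ∈ H) (i : I) :
    Loc H (κ i '' ball 0 (128 * η)) := by
  have b0 := fun z => nb (hv i) (a := 72 * η) (by linarith) z _ (sub_add_cancel _ _).symm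
  have b1 := fun z => nb (hv i) (a := 74 * η) (by linarith) z _ (sub_add_cancel _ _).symm
  have b2 := fun z => nb (hv i) (a := 2 * η) (by linarith) (z - (72 * η) • v i) (z - (74 * η) • v i)
    (by module)
  have c1 : ∀ y ∈ κ i '' ball ((74 * η) • v i) (3 * η), l y ∈ κ i '' ball ((74 * η) • v i) (3 * η) := by
    rintro _ ⟨z, hz, rfl⟩
    have := mem_ball_iff_norm.1 hz
    exact ⟨_, mem_ball_iff_norm.2 (by rw [add_sub_cancel_left, nh]; linarith), (l1 i z this.le).symm⟩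
  have c2 : ∀ y ∈ κ i '' ball ((72 * η) • v i) (η / 2), y ∈ κ i '' ball ((74 * η) • v i) (3 * η) ∧
      l⁻¹ y ∉ κ i '' ball ((74 * η) • v i) (3 * η) := by
    rintro _ ⟨z, hz, rfl⟩
    have a0 := mem_ball_iff_norm.1 hz
    refine ⟨⟨z, mem_ball_iff_norm.2 (by linarith [(b2 z).2.1]), rfl⟩, fun ⟨w, hw, e⟩ => ?_⟩
    have a1 := mem_ball_iff_norm.1 hw
    rw [Perm.eq_inv_iff_eq, l1 i w a1.le] at e
    have a2 : ‖(74 * η) • v i + (1 / 2 : ℝ) • (w - (74 * η) • v i) - (74 * η) • v i‖ < 3 * η / 2 := by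
      rw [add_sub_cancel_left, nh]; linarith
    rw [(inj i i _ z (by linarith [(b1 _).1.trans (add_le_add_left a2.le _)])
      (by linarith [(b0 z).1]) e).2] at a2
    linarith [(b2 z).2.2]
  have d0 : Loc H (κ i '' ball ((72 * η) • v i) (η / 2)) := fun a a0 K _ k a1 => by
    have a2 := sup_mono a1 k
    obtain ⟨C, C0, C1⟩ := swindle l0 c1 c2 (half_lim (hs i _ (by
      rw [norm_smul, hv, Real.norm_of_nonneg (by linarith)]; linarith)) (l1 i) fun z hz => by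
        linarith [(b2 z).2.1, mem_ball_iff_norm.1 hz]) (fun _ => a) fun _ => ⟨a0, a2⟩
    rw [C1.perf c1 c2 a2]
    exact mul_mem (lH C (ad_one hB i C0 (sup_mono (C1.sup c1 fun z hz => (c2 z hz).1) fun y hy =>
      image_mono (fun z hz => mem_ball_iff_norm.2 (by
        linarith [(b2 z).1, mem_ball_iff_norm.1 hz])) hy))) (by simpa using lH 1 (one_mem _))
  have d1 : ∀ j : ℕ, j ≤ 8 →
      Loc H (κ i '' {z | (1 / 2 : ℝ) ^ j • z ∈ ball ((72 * η) • v i) (η / 2)}) := fun j hj => by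
    induction j with
    | zero => simp only [pow_zero, one_smul]; exact d0
    | succ j ih =>
      refine (ih (by omega)).back x0 hH ?_
      rintro _ ⟨z, hz, rfl⟩
      have a0 := mem_ball_iff_norm.1 hz
      have a1 := b0 ((1 / 2 : ℝ) ^ (j + 1) • z)
      have a2 : (1 / 2 : ℝ) ^ 8 ≤ (1 / 2) ^ (j + 1) :=
        pow_le_pow_of_le_one (by norm_num) (by norm_num) hj
      have a3 : (1 / 2 : ℝ) ^ (j + 1) ≤ (1 / 2) ^ 1 :=
        pow_le_pow_of_le_one (by norm_num) (by norm_num) (by omega)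
      rw [norm_smul, Real.norm_of_nonneg (by positivity)] at a1
      have a4 : ‖z‖ ≤ 16 := by nlinarith [a1.1, norm_nonneg z]
      exact ⟨nm inj a4 (by nlinarith [a1.2.2, norm_nonneg z]), _,
        by rwa [mem_ofPred_eq, smul_smul, ← pow_succ], (hx i z a4).symm⟩
  have d2 : ∀ (j : ℕ) z, ‖z‖ + j * (192 * η) ≤ 1 / 2 →
      (f ^ j) (κ i z) = κ i (z + (j * (192 * η)) • v i) := fun j z hz => by
    induction j with
    | zero => simp
    | succ j ih =>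
      rw [Nat.cast_succ] at hz ⊢
      have := (nb (hv i) (a := j * (192 * η)) (by positivity) _ z rfl).1
      rw [← pw, ih (by linarith), hf i _ (by linarith)]
      congr 1
      module
  refine (d1 8 le_rfl).conj (pow_mem fH 96) (pow_mem f0 96) ?_
  rintro _ ⟨z, hz, rfl⟩
  have := mem_ball_zero_iff.1 hz
  refine ⟨_, mem_ball_iff_norm.2 ?_, (d2 96 z (by push_cast; linarith)).symm⟩
  rw [show (1 / 2 : ℝ) ^ 8 • (z + (((96 : ℕ) : ℝ) * (192 * η)) • v i) - (72 * η) • v i =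
    (1 / 256 : ℝ) • z by push_cast; module, norm_smul, Real.norm_of_nonneg (by norm_num)]
  linarith

end Pool.Agent.Lib.MP_a2d0bb_al.CM
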