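import Pool.Agent.Lib.MP_a2d0bb_al.CM.Core

/-!
Continuous permutations of a compact space: gluing, the swindle, pushes in charts, fragmentation.
-/

set_option autoImplicit false
set_option linter.unusedSectionVars false

open Equiv Set Metric Filter
open scoped Topology NNReal

namespace Pool.Agent.Lib.MP_a2d0bb_al.CM

theorem fglue {X I : Type*} {U : I → Set X} {F : I → Perm X} {G : Subgroup (Perm X)} (hU : Dj U)
    (hF : ∀ i, F i ∈ Sup (U i)) (hG : ∀ i, F i ∈ G) (hf : {i | F i ≠ 1}.Finite) :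
    ∃ g ∈ G, (∀ i, ∀ z ∈ U i, g z = F i z) ∧ ∀ z, (∀ i, z ∉ U i) → g z = z := by
  obtain ⟨g, hg⟩ := ex_pr hU hF
  obtain ⟨c, c1, c2⟩ := hg.lim (ν := fun _ => 0) hU hF hG (fun _ => hf.subset fun _ h => h.1) 0
  exact ⟨g, (Equiv.ext fun z => c2 z le_rfl : g = c) ▸ c1, fun i z hz => hg.on hU hF hz,
    fun z hz => (hg z).2 fun i => hF i z (hz i)⟩

variable {M : Type*} [TopologicalSpace M] [T2Space M] [CompactSpace M]

variable (M) in
/-- The continuous permutations. -/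
def Cts : Subgroup (Perm M) where
  carrier := {h | Continuous h}
  one_mem' := continuous_id
  mul_mem' := fun hf hg => hf.comp hg
  inv_mem' := fun hf => Continuous.continuous_symm_of_equiv_compact_to_t2 hf

theorem swindle [TopologicalSpace.MetrizableSpace M] {y : Perm M} (hy : y ∈ Cts M) {V B : Set M}
    {p : M} (h1 : ∀ z ∈ V, y z ∈ V) (hB : ∀ z ∈ B, z ∈ V ∧ y⁻¹ z ∉ V)
    (hp : ∀ O ∈ 𝓝 p, ∀ᶠ n in atTop, ∀ t ∈ B, (y ^ n) t ∈ O)
    (A : ℕ → Perm M) (hA : ∀ n, A n ∈ Cts M ∧ A n ∈ Sup B) : ∃ Φ ∈ Cts M, Sw y B A Φ := by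
  let := TopologicalSpace.metrizableSpaceMetric M
  have hU : Dj fun n : ℕ => (y ^ n) '' B := by
    rintro n m _ ⟨t, ht, rfl⟩ ⟨t', ht', h⟩
    exact slot_eq h1 hB ht ht' h.symm
  have hF : ∀ n, y ^ n * A n * (y ^ n)⁻¹ ∈ Sup (⇑(y ^ n) '' B) :=
    fun n => sup_conj (hA n).2 fun t ht => ⟨t, ht, rfl⟩
  obtain ⟨Φ, hΦ⟩ := ex_pr hU hF
  have s1 : ∀ n, ∀ t ∈ B, Φ ((y ^ n) t) = (y ^ n) (A n t) := fun n t ht => by
    rw [hΦ.on hU hF ⟨t, ht, rfl⟩, Perm.mul_apply, Perm.mul_apply, ia]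
  have s2 : ∀ z, (∀ n, ∀ t ∈ B, (y ^ n) t ≠ z) → Φ z = z :=
    fun z hz => (hΦ z).2 fun n => hF n z fun ⟨t, ht, h⟩ => hz n t ht h
  refine ⟨Φ, ?_, s1, s2⟩
  choose g g0 g1 g2 using fun N : ℕ => fglue (G := Cts M)
    (F := fun n => if n < N then y ^ n * A n * (y ^ n)⁻¹ else 1) hU
    (fun n => by split_ifs; exacts [hF n, one_mem _])
    (fun n => by
      split_ifs
      exacts [mul_mem (mul_mem (pow_mem hy n) (hA n).1) (inv_mem (pow_mem hy n)), one_mem _])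
    ((finite_Iio N).subset fun n hn => by_contra fun h => hn (if_neg h))
  refine TendstoUniformly.continuous (F := fun N => g N) (p := atTop)
    (Metric.tendstoUniformly_iff.2 fun ε hε => ?_) (Frequently.of_forall g0)
  obtain ⟨N, hN⟩ := eventually_atTop.1 (hp _ (ball_mem_nhds p (half_pos hε)))
  refine eventually_atTop.2 ⟨N, fun N' hN' z => ?_⟩
  by_cases hz : ∃ n : ℕ, z ∈ ⇑(y ^ n) '' B
  · obtain ⟨n, t, ht, rfl⟩ := hz
    rw [g1 N' n _ ⟨t, ht, rfl⟩, s1 n t ht]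
    split_ifs with h
    · rw [Perm.mul_apply, Perm.mul_apply, ia, dist_self]; exact hε
    · have a1 := mem_ball.1 (hN n (by omega) t ht)
      have a2 := mem_ball.1 (hN n (by omega) _ (sup_map (hA n).2 ht))
      exact (dist_triangle_right _ _ p).trans_lt (by rw [Perm.one_apply]; linarith)
  · rw [g2 N' z (not_exists.1 hz), s2 z fun n t ht e => hz ⟨n, t, ht, e⟩, dist_self]
    exact hε

/-- Weakly decreasing maps. -/
def Dec (φ : M → ℝ) (h : Perm M) : Prop := ∀ z, h z = z ∨ φ (h z) < φ z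

theorem Dec.mul {φ : M → ℝ} {h h' : Perm M} (a : Dec φ h) (a' : Dec φ h') :
    Dec φ (h * h') ∧ ∀ z, φ (h z) < φ z ∨ φ (h' z) < φ z → φ ((h * h') z) < φ z := by
  have key : ∀ z, φ (h' z) < φ z → φ ((h * h') z) < φ z := fun z hz => by
    rcases a (h' z) with e | e
    · rwa [Perm.mul_apply, e]
    · exact e.trans hz
  refine ⟨fun z => ?_, fun z hz => ?_⟩ <;> rcases a' z with e | e
  · rw [Perm.mul_apply, e]; exact a z
  · exact Or.inr (key z e)
  · rw [Perm.mul_apply, e]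
    exact hz.resolve_right (by rw [e]; exact lt_irrefl _)
  · exact key z e

theorem cover (H : Subgroup (Perm M)) (φ : M → ℝ) {K : Set M} (hK : IsCompact K)
    (h : ∀ z ∈ K, ∃ O ∈ 𝓝 z, ∃ h ∈ H, Dec φ h ∧ ∀ y ∈ O, φ (h y) < φ y) :
    ∃ h ∈ H, Dec φ h ∧ ∀ y ∈ K, φ (h y) < φ y := by
  refine hK.induction_on (p := fun S => ∃ h ∈ H, Dec φ h ∧ ∀ y ∈ S, φ (h y) < φ y)
    ⟨1, one_mem _, fun _ => Or.inl rfl, fun _ h => h.elim⟩
    (fun _ _ hs ⟨a, a1, a2, a3⟩ => ⟨a, a1, a2, fun y hy => a3 y (hs hy)⟩)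
    (fun _ _ ⟨a, a1, a2, a3⟩ ⟨b, b1, b2, b3⟩ => ⟨a * b, mul_mem a1 b1, (a2.mul b2).1,
      fun y hy => (a2.mul b2).2 y (hy.imp (a3 y) (b3 y))⟩) fun z hz => ?_
  obtain ⟨O, h1, h2⟩ := h z hz
  exact ⟨O, mem_nhdsWithin_of_mem_nhds h1, h2⟩

theorem iter {ψ : M → ℝ} {D : Set M} (hD : IsCompact D) (hψ : ContinuousOn ψ D) {y : Perm M}
    (hy : y ∈ Cts M) (h1 : ∀ z ∈ D, y z ∈ D) (h2 : Dec ψ y) {t : ℝ}
    (h3 : ∀ z ∈ D, t ≤ ψ z → ψ (y z) < ψ z) : ∃ N : ℕ, ∀ z ∈ D, ψ ((y ^ N) z) < t := by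
  obtain ⟨η, η0, hη⟩ := (hD.of_isClosed_subset (hψ.preimage_isClosed_of_isClosed hD.isClosed
    (isClosed_Ici (a := t))) inter_subset_left).exists_forall_le' (f := fun z => ψ z - ψ (y z))
    ((hψ.sub (hψ.comp (Continuous.continuousOn hy) h1)).mono inter_subset_left) (a := 0)
    fun z hz => sub_pos.2 (h3 z hz.1 hz.2)
  obtain ⟨b, hb⟩ := hD.bddAbove_image hψ
  obtain ⟨N, hN⟩ := exists_nat_gt ((b - t) / η)
  rw [div_lt_iff₀ η0] at hN
  have key : ∀ n : ℕ, ∀ z ∈ D, ψ ((y ^ n) z) < t ∨ ψ ((y ^ n) z) ≤ b - n * η := fun n z hz => by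
    induction n with
    | zero => exact Or.inr (by simpa using hb ⟨z, hz, rfl⟩)
    | succ n ih =>
      rw [← pw]
      by_cases h : ψ ((y ^ n) z) < t
      · rcases h2 ((y ^ n) z) with e | e
        · rw [e]; exact Or.inl h
        · exact Or.inl (e.trans h)
      · have := hη _ ⟨pow_in h1 n hz, not_lt.1 h⟩
        rw [Nat.cast_succ]
        exact Or.inr (by linarith [ih.resolve_left h])
  exact ⟨N, fun z hz => (key N z hz).elim id fun h => by linarith⟩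

variable {E : Type*} [NormedAddCommGroup E] [NormedSpace ℝ E] [FiniteDimensional ℝ E]

theorem lip_perm (u : E → E) {K : ℝ} (hK : K < 1) (hu : ∀ z z', ‖u z - u z'‖ ≤ K * ‖z - z'‖) :
    ∃ a : Perm E, Continuous a ∧ ∀ z, a z = z + u z := by
  have := FiniteDimensional.complete ℝ E
  have h : ApproximatesLinearOn (fun z => z + u z)
      (ContinuousLinearEquiv.refl ℝ E : E →L[ℝ] E) univ K.toNNReal := fun z _ z' _ => by
    rw [show z + u z - (z' + u z') - (ContinuousLinearEquiv.refl ℝ E : E →L[ℝ] E) (z - z') =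
      u z - u z' by simp; abel]
    exact (hu z z').trans (mul_le_mul_of_nonneg_right (Real.le_coe_toNNReal K) (norm_nonneg _))
  have hc : Subsingleton E ∨ K.toNNReal <
      ‖((ContinuousLinearEquiv.refl ℝ E).symm : E →L[ℝ] E)‖₊⁻¹ := by
    rcases subsingleton_or_nontrivial E with h | h
    · exact Or.inl h
    · exact Or.inr (by simpa using hK)
  exact ⟨(h.toHomeomorph _ hc).toEquiv, (h.toHomeomorph _ hc).continuous, fun _ => rfl⟩

theorem transfer (ι : OpenPartialHomeomorph E M) {K : Set E} (hK : IsCompact K)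
    (hs : K ⊆ ι.source) {a : Perm E} (ha : Continuous a) (h : a ∈ Sup K) :
    ∃ b ∈ Cts M, b ∈ Sup (ι '' K) ∧ ∀ z ∈ ι.source, b (ι z) = ι (a z) := by
  classical
  have src : ∀ a ∈ Sup K, ∀ z ∈ ι.source, a z ∈ ι.source :=
    fun a h z hz => sup_map (sup_mono h hs) hz
  let u : Perm E → M → M := fun a m => if m ∈ ι.target then ι (a (ι.symm m)) else m
  have u1 : ∀ a, ∀ z ∈ ι.source, u a (ι z) = ι (a z) := fun a z hz => by
    simp only [u, if_pos (ι.map_source hz), ι.left_inv hz]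
  have inv : ∀ a ∈ Sup K, ∀ m, u a⁻¹ (u a m) = m := fun a h m => by
    by_cases hm : m ∈ ι.target
    · rw [← ι.right_inv hm, u1 a _ (ι.map_target hm), u1 _ _ (src a h _ (ι.map_target hm)), ia]
    · simp only [u, if_neg hm]
  have s : ∀ m, m ∉ ι '' K → u a m = m := fun m hm => by
    by_cases hm' : m ∈ ι.target
    · simp only [u, if_pos hm']
      rw [h _ fun h' => hm ⟨_, h', ι.right_inv hm'⟩, ι.right_inv hm']
    · exact if_neg hm'
  refine ⟨⟨u a, u a⁻¹, inv a h, inv a⁻¹ (inv_mem h)⟩, ?_, s, u1 a⟩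
  refine continuous_iff_continuousAt.2 fun m => ?_
  by_cases hm : m ∈ ι.target
  · have c1 : ContinuousAt (fun m => a (ι.symm m)) m :=
      ha.continuousAt.comp (ι.continuousAt_symm hm)
    refine ContinuousAt.congr (f := fun m => ι (a (ι.symm m)))
      (ContinuousAt.comp (f := fun m => a (ι.symm m))
        (ι.continuousAt (src a h _ (ι.map_target hm))) c1) ?_
    filter_upwards [ι.open_target.mem_nhds hm] with m' hm' using (if_pos hm').symm
  · refine ContinuousAt.congr continuousAt_id ?_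
    filter_upwards [(hK.image_of_continuousOn (ι.continuousOn.mono hs)).isClosed.isOpen_compl.mem_nhds
      (fun ⟨z, h1, h2⟩ => hm (h2 ▸ ι.map_source (hs h1)))] with m' hm' using (s m' hm').symm

theorem push (ι : OpenPartialHomeomorph E M) (c : E) {r K L : ℝ} (hr : 0 < r)
    (hs : closedBall c (3 * r) ⊆ ι.source) (w : E → E) (hw : ∀ z z', ‖w z - w z'‖ ≤ K * ‖z - z'‖)
    (hL : ∀ z, ‖z - c‖ ≤ 3 * r → ‖w z‖ ≤ L * r) (hK0 : 0 ≤ K) (hK : K + L / 2 < 1) :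
    ∃ h ∈ Cts M, h ∈ Sup (ι '' closedBall c (3 * r)) ∧ ∀ z ∈ ι.source, ∃ s : ℝ, 0 ≤ s ∧ s ≤ 1 ∧
      h (ι z) = ι (z + s • w z) ∧ (‖z - c‖ ≤ r → s = 1) ∧ (‖z - c‖ < 3 * r → 0 < s) := by
  obtain ⟨ρ, hρ⟩ : ∃ ρ : E → ℝ, ∀ z, ρ z = max 0 (min 1 ((3 * r - ‖z - c‖) / (2 * r))) :=
    ⟨_, fun _ => rfl⟩
  have r0 : ∀ z, 0 ≤ ρ z := fun z => hρ z ▸ le_max_left _ _
  have r1 : ∀ z, ρ z ≤ 1 := fun z => hρ z ▸ max_le zero_le_one (min_le_left _ _)
  have r2 : ∀ z, ¬ ‖z - c‖ ≤ 3 * r → ρ z = 0 := fun z hz => hρ z ▸ max_eq_left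
    ((min_le_right _ _).trans (div_nonpos_of_nonpos_of_nonneg (by linarith) (by linarith)))
  have r3 : ∀ z z', |ρ z - ρ z'| ≤ ‖z - z'‖ / (2 * r) := fun z z' => by
    rw [hρ, hρ, max_comm, max_comm 0]
    refine (abs_max_sub_max_le_abs _ _ _).trans ((abs_min_sub_min_le_max _ _ _ _).trans
      (max_le (by rw [sub_self, abs_zero]; positivity) ?_))
    rw [← sub_div, abs_div, abs_of_pos (by linarith : 0 < 2 * r)]
    refine div_le_div_of_nonneg_right ?_ (by linarith)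
    have := abs_norm_sub_norm_le (z' - c) (z - c)
    rw [sub_sub_sub_cancel_right, norm_sub_rev z' z] at this
    rwa [sub_sub_sub_cancel_left]
  have key : ∀ z z', ‖z' - c‖ ≤ 3 * r →
      ‖ρ z • w z - ρ z' • w z'‖ ≤ (K + L / 2) * ‖z - z'‖ := fun z z' h => by
    rw [show ρ z • w z - ρ z' • w z' = ρ z • (w z - w z') + (ρ z - ρ z') • w z' by module]
    refine (norm_add_le _ _).trans ?_
    rw [norm_smul, norm_smul, Real.norm_eq_abs, Real.norm_eq_abs, abs_of_nonneg (r0 z), add_mul]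
    refine add_le_add ((mul_le_of_le_one_left (norm_nonneg _) (r1 z)).trans (hw z z')) ?_
    refine (mul_le_mul (r3 z z') (hL z' h) (norm_nonneg _) (by positivity)).trans_eq ?_
    field_simp
  have hL0 : 0 ≤ L := nonneg_of_mul_nonneg_left ((norm_nonneg _).trans
    (hL c (by rw [sub_self, norm_zero]; linarith))) hr
  obtain ⟨a, a0, a1⟩ := lip_perm (fun z => ρ z • w z) hK fun z z' => by
    by_cases h : ‖z' - c‖ ≤ 3 * r
    · exact key z z' h
    by_cases h' : ‖z - c‖ ≤ 3 * r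
    · rw [norm_sub_rev, norm_sub_rev z]; exact key z' z h'
    · simp only [r2 z h', r2 z' h, zero_smul, sub_self, norm_zero]; positivity
  obtain ⟨b, b0, b1, b2⟩ := transfer ι (isCompact_closedBall c (3 * r)) hs a0 fun z hz => by
    rw [a1, r2 z fun h => hz (mem_closedBall_iff_norm.2 h), zero_smul, add_zero]
  refine ⟨b, b0, b1, fun z hz => ⟨ρ z, r0 z, r1 z, by rw [b2 z hz, a1], fun h => ?_, fun h => ?_⟩⟩
  · rw [hρ, min_eq_left ((one_le_div (by linarith)).2 (by linarith)), max_eq_right zero_le_one]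
  · exact hρ z ▸ lt_max_of_lt_right (lt_min one_pos (div_pos (by linarith) (by linarith)))

theorem dec_of {g : E → ℝ} {g' : E → E →L[ℝ] ℝ} {z w : E}
    (h : ∀ τ ∈ Icc (0 : ℝ) 1, HasFDerivAt g (g' (z + τ • w)) (z + τ • w))
    (h' : ∀ τ ∈ Ioo (0 : ℝ) 1, g' (z + τ • w) w < 0) : g (z + w) < g z := by
  have hd : ∀ τ ∈ Icc (0 : ℝ) 1, HasDerivAt (fun τ : ℝ => g (z + τ • w)) (g' (z + τ • w) w) τ :=
    fun τ hτ => by
      have := (h τ hτ).comp_hasDerivAt τ (((hasDerivAt_id τ).smul_const w).const_add z)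
      rw [one_smul] at this
      exact this
  obtain ⟨τ, h1, h2⟩ := exists_hasDerivAt_eq_slope _ _ one_pos
    (fun τ hτ => (hd τ hτ).continuousAt.continuousWithinAt) fun τ hτ => hd τ (Ioo_subset_Icc_self hτ)
  have := h' τ h1
  rw [h2] at this
  simpa using this

variable (M E) in
/-- Homeomorphisms supported in a closed coordinate ball. -/
def Gen : Set (Perm M) := {h | Continuous h ∧ ∃ (ι : OpenPartialHomeomorph E M) (c : E) (r : ℝ),
  closedBall c r ⊆ ι.source ∧ ∀ z, z ∉ ι '' closedBall c r → h z = z}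

theorem regpush (ι : OpenPartialHomeomorph E M) (φ : M → ℝ) {c : E} (hc : c ∈ ι.source)
    {g' : E → E →L[ℝ] ℝ} (h1 : ∀ᶠ z in 𝓝 c, HasFDerivAt (fun z => φ (ι z)) (g' z) z)
    (h2 : ContinuousAt g' c) (h3 : g' c ≠ 0) {U : Set M} (hU : U ∈ 𝓝 (ι c)) :
    ∃ O ∈ 𝓝 (ι c), ∃ h ∈ Gen M E, (∃ K, IsCompact K ∧ K ⊆ U ∧ h ∈ Sup K) ∧ Dec φ h ∧
      ∀ y ∈ O, φ (h y) < φ y := by
  obtain ⟨v, v1, v2⟩ : ∃ v, ‖v‖ ≤ 1 ∧ g' c v < 0 := by
    obtain ⟨v, hv⟩ := not_forall.1 fun h => h3 (ContinuousLinearMap.ext h)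
    have hv' : g' c v ≠ 0 := hv
    have v0 : 0 < ‖v‖ := norm_pos_iff.2 (by rintro rfl; exact hv' (map_zero _))
    rcases lt_or_gt_of_ne hv' with h | h
    · exact ⟨‖v‖⁻¹ • v, by rw [norm_smul, norm_inv, norm_norm, inv_mul_cancel₀ v0.ne'], by
        rw [map_smul]; exact mul_neg_of_pos_of_neg (inv_pos.2 v0) h⟩
    · exact ⟨-(‖v‖⁻¹ • v), by rw [norm_neg, norm_smul, norm_inv, norm_norm, inv_mul_cancel₀ v0.ne'],
        by rw [map_neg, map_smul]; exact neg_neg_of_pos (mul_pos (inv_pos.2 v0) h)⟩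
  obtain ⟨ε, ε0, hε⟩ := Metric.eventually_nhds_iff_ball.1 (h1.and
    (((h2.clm_apply continuousAt_const).eventually_lt continuousAt_const v2).and
      (Eventually.and (p := fun z => z ∈ ι.source) (q := fun z => ι z ∈ U)
        (ι.open_source.mem_nhds hc) (ι.continuousAt hc hU))))
  have hb : ∀ z, ‖z - c‖ ≤ 4 * (ε / 5) → z ∈ ball c ε :=
    fun z hz => mem_ball_iff_norm.2 (by linarith)
  have hs : closedBall c (3 * (ε / 5)) ⊆ ι.source :=
    fun z hz => (hε z (hb z (by linarith [mem_closedBall_iff_norm.1 hz]))).2.2.1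
  obtain ⟨h, a0, a1, a2⟩ := push ι c (K := 0) (L := 1) (by linarith) hs (fun _ => (ε / 5) • v)
    (by simp) (fun _ _ => by
      rw [norm_smul, Real.norm_of_nonneg (by linarith)]; nlinarith) le_rfl (by norm_num)
  have key : ∀ z, ‖z - c‖ ≤ 3 * (ε / 5) → ∀ s : ℝ, 0 < s → s ≤ 1 →
      φ (ι (z + s • (ε / 5) • v)) < φ (ι z) := fun z hz s s0 s1 => by
    have hm : ∀ τ ∈ Icc (0 : ℝ) 1, z + τ • s • (ε / 5) • v ∈ ball c ε := fun τ hτ => hb _ (by
      rw [add_sub_right_comm, smul_smul, smul_smul]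
      refine (norm_add_le _ _).trans ?_
      have : τ * s ≤ 1 := mul_le_one₀ hτ.2 s0.le s1
      rw [norm_smul, Real.norm_of_nonneg (by have := hτ.1; positivity)]
      have := mul_le_mul_of_nonneg_left (mul_le_one₀ this (norm_nonneg v) v1) ε0.le
      linarith)
    refine dec_of (g := fun z => φ (ι z)) (fun τ hτ => (hε _ (hm τ hτ)).1) fun τ hτ => ?_
    rw [map_smul, map_smul]
    exact mul_neg_of_pos_of_neg s0 (mul_neg_of_pos_of_neg (by linarith)
      (hε _ (hm τ (Ioo_subset_Icc_self hτ))).2.1)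
  refine ⟨_, ι.image_mem_nhds hc (ball_mem_nhds c (show 0 < ε / 5 by linarith)), h,
    ⟨a0, ι, c, _, hs, a1⟩, ⟨_, (isCompact_closedBall c _).image_of_continuousOn
      (ι.continuousOn.mono hs), ?_, a1⟩, fun m => ?_, ?_⟩
  · rintro _ ⟨z, hz, rfl⟩
    exact (hε z (hb z (by linarith [mem_closedBall_iff_norm.1 hz]))).2.2.2
  · by_cases hm : m ∈ ι '' closedBall c (3 * (ε / 5))
    · obtain ⟨z, hz, rfl⟩ := hm
      obtain ⟨s, s0, s1, s2, -⟩ := a2 z (hs hz)
      rw [s2]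
      rcases s0.eq_or_lt with rfl | s0
      · exact Or.inl (by rw [zero_smul, add_zero])
      · exact Or.inr (key z (mem_closedBall_iff_norm.1 hz) s s0 s1)
    · exact Or.inl (a1 m hm)
  · rintro _ ⟨z, hz, rfl⟩
    have hz' := mem_ball_iff_norm.1 hz
    obtain ⟨s, -, s1, s2, -, s3⟩ := a2 z (hs (mem_closedBall_iff_norm.2 (by linarith)))
    rw [s2]
    exact key z (by linarith) s (s3 (by linarith)) s1

/-- All continuous permutations with compact support in `U` lie in `H`. -/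
def Loc (H : Subgroup (Perm M)) (U : Set M) : Prop :=
  ∀ a ∈ Cts M, ∀ K, IsCompact K → K ⊆ U → a ∈ Sup K → a ∈ H

theorem Loc.conj {H : Subgroup (Perm M)} {U U' : Set M} (h : Loc H U) {e : Perm M} (he : e ∈ H)
    (he' : e ∈ Cts M) (hU : ∀ z ∈ U', e z ∈ U) : Loc H U' := fun a a0 K k1 k2 a1 => by
  simpa [mul_assoc] using mul_mem (mul_mem (inv_mem he) (h _ (mul_mem (mul_mem he' a0)
    (inv_mem he')) _ (k1.image he') (by rintro _ ⟨z, hz, rfl⟩; exact hU z (k2 hz))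
    (sup_conj a1 fun z hz => ⟨z, hz, rfl⟩))) he

end Pool.Agent.Lib.MP_a2d0bb_al.CM
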